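import Mathlib
import Pool.Agent.Work.MP_787500_nt.SH.GenDefs

/-!
Pro-2 representations of even dimension: definitions (fixed, do not change).
-/

set_option autoImplicit false
set_option linter.unusedSectionVars false

namespace Pool.Agent.Work.MP_787500_nt.PL

open Matrix

variable {G : Type*} {E : Type*} [NormedField E] {n : ℕ}

/-- The columns of `Q` are a basis (`R` is the inverse of `Q`) in which the form `b` has integral coefficients and a unit
as determinant and is alternating modulo the maximal ideal, and all `ρ g` are the identity modulo the maximal ideal. -/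
structure TrivB (ρ : G → Matrix (Fin n) (Fin n) E) (b Q R : Matrix (Fin n) (Fin n) E) : Prop where
  inv : R * Q = 1
  inv' : Q * R = 1
  int : ∀ i j, ‖(Qᵀ * b * Q) i j‖ ≤ 1
  det : ‖(Qᵀ * b * Q).det‖ = 1
  diag : ∀ i, ‖(Qᵀ * b * Q) i i‖ < 1
  triv : ∀ g i j, ‖(R * ρ g * Q - 1) i j‖ < 1

/-- The columns of `Q` are a basis (`R` is the inverse of `Q`) in which the form `b` has integral coefficients and a unit
as determinant, the entries of `b` above the second diagonal are divisible by `l ^ N`, the `ρ g` are integral, the entries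
of `ρ g` below the diagonal are divisible by `l ^ N`, and the entries of the diagonal are congruent to 1. -/
structure FlagB (ρ : G → Matrix (Fin n) (Fin n) E) (b Q R : Matrix (Fin n) (Fin n) E) (l : E) (N : ℕ) :
    Prop where
  inv : R * Q = 1
  inv' : Q * R = 1
  int : ∀ i j, ‖(Qᵀ * b * Q) i j‖ ≤ 1
  det : ‖(Qᵀ * b * Q).det‖ = 1
  low : ∀ i j : Fin n, (i : ℕ) + j + 1 < n → ‖(Qᵀ * b * Q) i j‖ ≤ ‖l‖ ^ N
  rint : ∀ g i j, ‖(R * ρ g * Q) i j‖ ≤ 1
  rlow : ∀ g (i j : Fin n), j < i → ‖(R * ρ g * Q) i j‖ ≤ ‖l‖ ^ N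
  rdiag : ∀ g i, ‖(R * ρ g * Q) i i - 1‖ < 1

end Pool.Agent.Work.MP_787500_nt.PL
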