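import Mathlib
import Pool.Agent.Work.MP_787500_nt.PL.Defs
import Pool.Agent.Work.MP_787500_nt.GP.LDefs
import Pool.Agent.Work.MP_787500_nt.GP.L03_Ring
import Pool.Agent.Work.MP_787500_nt.OP.Crd

/-!
# Module PL/Bas (size S-M): a basis of a self-dual lattice

`L` is a bounded open submodule of `E ^ n` over the discrete valuation ring `OE E`. It is finitely generated and torsion free,
so it is free, and a basis of `L` is also an `E`-basis of `E ^ n` (the private lemmas `crd_basis` and `crd_core` in OP/Crd.lean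
do this; copy them: linear independence by `LinearIndependent.iff_fractionRing`, generation because `L` is open). `Q` = matrix
whose columns are the basis, `R = Q⁻¹`: `x ∈ L ↔ R *ᵥ x` has integral entries. The Gram matrix `M = Qᵀ * b * Q` is integral
because `L` is contained in its dual. `M⁻¹` is integral: for every `i` the vector `y = Q *ᵥ (M⁻¹ *ᵥ Pi.single i 1)` satisfies
`bil b x y = (R x) i` for all `x ∈ L` (`M` is invertible because `b` is: if `M z = 0` then `bil b x (Q z) = 0` for all `x`, so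
`a • Q z ∈ L` for all `a : E` by `h.dual`, and `Q z = 0` because `L` is bounded), so `y ∈ L` by `h.dual` and symmetry. So `det M` and
its inverse have norm `≤ 1`.
-/

set_option autoImplicit false
set_option linter.unusedSectionVars false

namespace Pool.Agent.Work.MP_787500_nt.PL

open Matrix
open Pool.Agent.Work.MP_787500_nt.GP (OE bil Lat mem_OE)

variable {E : Type*} [NormedField E] [NormedAlgebra ℚ_[2] E] [FiniteDimensional ℚ_[2] E] {n : ℕ}
  {b : Matrix (Fin n) (Fin n) E} {l : OE E} {t : E →ₗ[ℚ_[2]] ℚ_[2]} {L : Submodule (OE E) (Fin n → E)}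

private theorem bas_pow (hllt : ‖(l : E)‖ < 1) (C ε : ℝ) (hε : 0 < ε) :
    ∃ k : ℕ, ‖(l : E)‖ ^ k * C < ε := by
  have h1 : Filter.Tendsto (fun k : ℕ => ‖(l : E)‖ ^ k * C) Filter.atTop (nhds (0 * C)) :=
    (tendsto_pow_atTop_nhds_zero_of_lt_one (norm_nonneg _) hllt).mul_const C
  rw [zero_mul] at h1
  exact (h1.eventually (gt_mem_nhds hε)).exists

private theorem bas_frac (hlne : (l : E) ≠ 0) (hllt : ‖(l : E)‖ < 1) :
    IsFractionRing (OE E) E := by
  refine IsFractionRing.of_field (R := OE E) (K := E) fun z => ?_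
  obtain ⟨k, hk⟩ := bas_pow hllt ‖z‖ 1 one_pos
  refine ⟨⟨(l : E) ^ k * z, ?_⟩, l ^ k, ?_⟩
  · rw [mem_OE, norm_mul, norm_pow]
    exact hk.le
  · show z = ((l : E) ^ k * z) / (((l ^ k : OE E)) : E)
    rw [Subring.coe_pow, mul_div_cancel_left₀ _ (pow_ne_zero _ hlne)]

private theorem bas_scale (hllt : ‖(l : E)‖ < 1)
    (hopn : ∃ r : ℝ, 0 < r ∧ ∀ x : Fin n → E, ‖x‖ < r → x ∈ L) (x : Fin n → E) :
    ∃ k : ℕ, (l : E) ^ k • x ∈ L := by
  obtain ⟨r, hr, hT⟩ := hopn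
  obtain ⟨k, hk⟩ := bas_pow hllt ‖x‖ r hr
  refine ⟨k, hT _ ?_⟩
  rw [norm_smul, norm_pow]
  exact hk

private theorem bas_basis (hlne : (l : E) ≠ 0) (hllt : ‖(l : E)‖ < 1)
    (hlmax : ∀ x : E, ‖x‖ < 1 → ‖x‖ ≤ ‖(l : E)‖) (hbdd : ∃ R : ℝ, ∀ x ∈ L, ‖x‖ ≤ R) :
    ∃ k : ℕ, Nonempty (Module.Basis (Fin k) (OE E) L) := by
  have hpid : IsPrincipalIdealRing (OE E) := GP.isPID hlne hllt hlmax
  obtain ⟨R, hR⟩ := hbdd
  obtain ⟨k, hk⟩ := bas_pow hllt R 1 one_pos
  let Φ : L →ₗ[OE E] (Fin n → OE E) :=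
    { toFun := fun x i => ⟨(l : E) ^ k * x.1 i, by
        rw [mem_OE, norm_mul, norm_pow]
        exact (mul_le_mul_of_nonneg_left ((norm_le_pi_norm x.1 i).trans (hR _ x.2))
          (by positivity)).trans hk.le⟩
      map_add' := fun x y => by
        funext i
        apply Subtype.ext
        exact mul_add _ _ _
      map_smul' := fun a x => by
        funext i
        apply Subtype.ext
        show (l : E) ^ k * ((a : E) * x.1 i) = (a : E) * ((l : E) ^ k * x.1 i)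
        ring }
  have hΦ : Function.Injective Φ := by
    intro x y hxy
    apply Subtype.ext
    funext i
    have h1 : (l : E) ^ k * x.1 i = (l : E) ^ k * y.1 i := congrArg Subtype.val (congrFun hxy i)
    exact mul_left_cancel₀ (pow_ne_zero _ hlne) h1
  obtain ⟨m, ⟨β⟩⟩ := Submodule.nonempty_basis_of_pid (Pi.basisFun (OE E) (Fin n))
    (LinearMap.range Φ)
  exact ⟨m, ⟨β.map (LinearEquiv.ofInjective Φ hΦ).symm⟩⟩

private theorem bas_core (hlne : (l : E) ≠ 0) (hllt : ‖(l : E)‖ < 1)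
    (hlmax : ∀ x : E, ‖x‖ < 1 → ‖x‖ ≤ ‖(l : E)‖)
    (hbdd : ∃ R : ℝ, ∀ x ∈ L, ‖x‖ ≤ R)
    (hopn : ∃ r : ℝ, 0 < r ∧ ∀ x : Fin n → E, ‖x‖ < r → x ∈ L) :
    ∃ bE : Module.Basis (Fin n) E (Fin n → E), ∀ x, x ∈ L ↔ ∀ i, ‖bE.repr x i‖ ≤ 1 := by
  have hpid : IsPrincipalIdealRing (OE E) := GP.isPID hlne hllt hlmax
  have hfrac := bas_frac hlne hllt
  obtain ⟨k, ⟨bM⟩⟩ := bas_basis (L := L) hlne hllt hlmax hbdd
  have hli : LinearIndependent E (fun i => (bM i : Fin n → E)) := by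
    rw [← LinearIndependent.iff_fractionRing (R := OE E)]
    exact bM.linearIndependent.map' L.subtype (Submodule.ker_subtype _)
  have hxs : ∀ x : L, (x : Fin n → E) =
      ∑ i, ((bM.repr x i : OE E) : E) • (bM i : Fin n → E) := by
    intro x
    have h1 := congrArg Subtype.val (bM.sum_repr x)
    rw [Submodule.coe_sum] at h1
    exact h1.symm
  have hsp : ⊤ ≤ Submodule.span E (Set.range fun i => (bM i : Fin n → E)) := by
    rintro x -
    obtain ⟨j, hj⟩ := bas_scale (L := L) hllt hopn x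
    have h1 := hxs ⟨_, hj⟩
    have h2 : x = ((l : E) ^ j)⁻¹ •
        ∑ i, ((bM.repr ⟨_, hj⟩ i : OE E) : E) • (bM i : Fin n → E) := by
      rw [← h1, smul_smul, inv_mul_cancel₀ (pow_ne_zero _ hlne), one_smul]
    rw [h2]
    exact Submodule.smul_mem _ _ (Submodule.sum_mem _ fun i _ =>
      Submodule.smul_mem _ _ (Submodule.subset_span ⟨i, rfl⟩))
  let bE : Module.Basis (Fin k) E (Fin n → E) := Module.Basis.mk hli hsp
  have hbE : ∀ i, bE i = (bM i : Fin n → E) := fun i => Module.Basis.mk_apply hli hsp i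
  have hco : ∀ x ∈ L, ∀ i, ‖bE.repr x i‖ ≤ 1 := by
    intro x hx i
    have h1 : x = ∑ i, ((bM.repr ⟨x, hx⟩ i : OE E) : E) • bE i := by
      simp only [hbE]
      exact hxs ⟨x, hx⟩
    have h2 : bE.repr x = Finsupp.equivFunOnFinite.symm
        (fun i => ((bM.repr ⟨x, hx⟩ i : OE E) : E)) := by
      conv_lhs => rw [h1]
      ext i
      rw [map_sum, Finsupp.finsetSum_apply]
      simp [Module.Basis.repr_self, Finsupp.single_apply]
    rw [h2]
    exact (bM.repr ⟨x, hx⟩ i).2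
  have hco' : ∀ x, (∀ i, ‖bE.repr x i‖ ≤ 1) → x ∈ L := by
    intro x hx
    rw [← bE.sum_repr x]
    refine Submodule.sum_mem _ fun i _ => ?_
    rw [hbE]
    exact L.smul_mem (⟨bE.repr x i, hx i⟩ : OE E) (bM i).2
  have hk : k = n := by
    have h1 := Module.finrank_eq_card_basis bE
    rw [Module.finrank_fin_fun, Fintype.card_fin] at h1
    exact h1.symm
  subst hk
  exact ⟨bE, fun x => ⟨hco x, hco' x⟩⟩

private theorem bas_det (M : Matrix (Fin n) (Fin n) E) (hM : ∀ i j, ‖M i j‖ ≤ 1) :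
    ‖M.det‖ ≤ 1 := by
  have h1 : M = (Matrix.of fun i j => (⟨M i j, hM i j⟩ : OE E)).map (OE E).subtype := by
    ext i j
    rfl
  rw [h1, ← RingHom.mapMatrix_apply, ← RingHom.map_det]
  exact mem_OE.1 (Subtype.prop (Matrix.det (Matrix.of fun i j => (⟨M i j, hM i j⟩ : OE E))))

theorem exists_bas (h : Lat b l t L) : ∃ Q R : Matrix (Fin n) (Fin n) E, R * Q = 1 ∧ Q * R = 1 ∧
    (∀ x, x ∈ L ↔ ∀ i, ‖(R *ᵥ x) i‖ ≤ 1) ∧ (∀ i j, ‖(Qᵀ * b * Q) i j‖ ≤ 1) ∧
    ‖(Qᵀ * b * Q).det‖ = 1 := by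
  obtain ⟨bE, hbE⟩ := bas_core (L := L) h.lne h.llt h.lmax h.bdd h.opn
  let Q : Matrix (Fin n) (Fin n) E := (Pi.basisFun E (Fin n)).toMatrix bE
  let R : Matrix (Fin n) (Fin n) E := bE.toMatrix (Pi.basisFun E (Fin n))
  have hQ : ∀ i j, Q i j = bE j i := fun i j => by
    show (Pi.basisFun E (Fin n)).toMatrix bE i j = _
    rw [Module.Basis.toMatrix_apply, Pi.basisFun_repr]
  have hRQ : R * Q = 1 := Module.Basis.toMatrix_mul_toMatrix_flip _ _
  have hQR : Q * R = 1 := Module.Basis.toMatrix_mul_toMatrix_flip _ _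
  have hR : ∀ x, R *ᵥ x = bE.repr x := by
    intro x
    have h1 := Module.Basis.toMatrix_mulVec_repr (b := Pi.basisFun E (Fin n)) (b' := bE) x
    have h2 : (⇑((Pi.basisFun E (Fin n)).repr x) : Fin n → E) = x := by
      ext i
      rw [Pi.basisFun_repr]
    rw [h2] at h1
    exact h1
  have hL : ∀ x, x ∈ L ↔ ∀ i, ‖(R *ᵥ x) i‖ ≤ 1 := by
    intro x
    rw [hbE, hR]
  have hb : ∀ x y, bil b (Q *ᵥ x) (Q *ᵥ y) = x ⬝ᵥ ((Qᵀ * b * Q) *ᵥ y) := by
    intro x y
    rw [bil, ← Matrix.mulVec_mulVec, ← Matrix.mulVec_mulVec, Matrix.dotProduct_mulVec x,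
      Matrix.vecMul_transpose]
  have hb' : ∀ x y, bil b x (Q *ᵥ y) = (R *ᵥ x) ⬝ᵥ ((Qᵀ * b * Q) *ᵥ y) := by
    intro x y
    rw [← hb, Matrix.mulVec_mulVec, hQR, Matrix.one_mulVec]
  have hQL : ∀ j, Q *ᵥ Pi.single j 1 ∈ L := by
    intro j
    rw [hL, Matrix.mulVec_mulVec, hRQ, Matrix.one_mulVec]
    intro i
    by_cases hij : i = j
    · subst hij
      rw [Pi.single_eq_same, norm_one]
    · rw [Pi.single_eq_of_ne hij, norm_zero]
      exact zero_le_one
  have hM : ∀ i j, ‖(Qᵀ * b * Q) i j‖ ≤ 1 := by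
    intro i j
    have h1 : (Qᵀ * b * Q) i j = bil b (Q *ᵥ Pi.single i 1) (Q *ᵥ Pi.single j 1) := by
      rw [hb, Matrix.mulVec_single_one, single_dotProduct, one_mul]
      rfl
    rw [h1]
    exact (h.dual _).1 (hQL i) _ (hQL j)
  have hdet : (Qᵀ * b * Q).det ≠ 0 := by
    intro h0
    obtain ⟨z, hz, hMz⟩ := Matrix.exists_mulVec_eq_zero_iff.2 h0
    have hy : Q *ᵥ z ≠ 0 := by
      intro h1
      apply hz
      have h2 := congrArg (fun y => R *ᵥ y) h1
      simp only [Matrix.mulVec_mulVec, hRQ, Matrix.one_mulVec, Matrix.mulVec_zero] at h2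
      exact h2
    have h1 : ∀ x, bil b x (Q *ᵥ z) = 0 := by
      intro x
      rw [hb', hMz, dotProduct_zero]
    have h2 : ∀ c : E, c • (Q *ᵥ z) ∈ L := by
      intro c
      rw [h.dual]
      intro x _
      rw [GP.bil_smul_left, GP.bil_symm h.symm, h1, mul_zero, norm_zero]
      exact zero_le_one
    obtain ⟨R', hR'⟩ := h.bdd
    obtain ⟨j, hj⟩ := bas_pow (l := l) h.llt (R' + 1) ‖Q *ᵥ z‖ (norm_pos_iff.2 hy)
    have h3 := hR' _ (h2 ((l : E) ^ j)⁻¹)
    rw [norm_smul, norm_inv, norm_pow] at h3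
    have h4 : 0 < ‖(l : E)‖ ^ j := pow_pos (norm_pos_iff.2 h.lne) j
    rw [inv_mul_le_iff₀ h4] at h3
    nlinarith
  have hu : IsUnit (Qᵀ * b * Q).det := isUnit_iff_ne_zero.2 hdet
  have hMN : (Qᵀ * b * Q) * (Qᵀ * b * Q)⁻¹ = 1 := Matrix.mul_nonsing_inv _ hu
  have hN : ∀ i j, ‖(Qᵀ * b * Q)⁻¹ i j‖ ≤ 1 := by
    intro i j
    have h1 : Q *ᵥ ((Qᵀ * b * Q)⁻¹ *ᵥ Pi.single j 1) ∈ L := by
      rw [h.dual]
      intro x hx
      rw [GP.bil_symm h.symm, hb', Matrix.mulVec_mulVec, hMN, Matrix.one_mulVec,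
        dotProduct_single, mul_one]
      exact (hL x).1 hx j
    have h2 := (hL _).1 h1 i
    rw [Matrix.mulVec_mulVec, hRQ, Matrix.one_mulVec, Matrix.mulVec_single_one] at h2
    exact h2
  refine ⟨Q, R, hRQ, hQR, hL, hM, ?_⟩
  have h1 := bas_det _ hM
  have h2 := bas_det _ hN
  have h3 : ‖(Qᵀ * b * Q).det‖ * ‖((Qᵀ * b * Q)⁻¹).det‖ = 1 := by
    rw [← norm_mul, ← Matrix.det_mul, hMN, Matrix.det_one, norm_one]
  refine le_antisymm h1 ?_
  calc (1 : ℝ) = ‖(Qᵀ * b * Q).det‖ * ‖((Qᵀ * b * Q)⁻¹).det‖ := h3.symm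
    _ ≤ ‖(Qᵀ * b * Q).det‖ * 1 := mul_le_mul_of_nonneg_left h2 (norm_nonneg _)
    _ = ‖(Qᵀ * b * Q).det‖ := mul_one _

end Pool.Agent.Work.MP_787500_nt.PL
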