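import Mathlib

/-!
# Module PL/Fin (size M): a flag for a 2-group and a symmetric form over a finite field of characteristic 2 (PURE linear
algebra)

Induction on `r` (`n = 2 * r`) for a finite-dimensional space `U` of dimension `2 * r` over `k` with `A : G → U →ₗ[k] U` and a
symmetric nondegenerate bilinear form `B` with `B (A g x) (A (κ g) y) = χ g * B x y`. To prove: a basis `v : Fin (2 * r) → U`
with `A g (v j) - v j ∈ span {v i | i < j}` and `B (v i) (v j) = 0` for `i + j + 1 < 2 * r`. (For matrices: `P` = matrix with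
columns `v j`, `(P⁻¹ * A g * P) i j` = the coordinate `i` of `A g (v j)`, `(Pᵀ * b * P) i j = B (v i) (v j)`.)

(1) every subspace `W ≠ 0` that is stable under all `A g` has a nonzero vector fixed by all `A g`: the operators `A g` on `W`
form a finite group in which every element has 2-power order (`h2`), so `IsPGroup 2`, and the number of fixed vectors is
congruent to `card W`, which is even (`IsPGroup.card_modEq_card_fixedPoints`), so it is not 1.
(2) for a fixed vector `x`, the subspace `x^⊥ = {y | B x y = 0}` is stable: `B x (A g y) = B (A (κ g) x) (A g y)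
= χ (κ g) * B x y` (`κ (κ g) = g`; the dual relation for `κ g`).
(3) if `r > 0` there is a fixed `x ≠ 0` with `B x x = 0`: take a fixed `x ≠ 0`. If `B x x ≠ 0`, then `x^⊥ ≠ 0` (dimension
`2 r - 1 > 0`) is stable, so it contains a fixed `z ≠ 0`. If `B z z ≠ 0`, take `α, β ∈ k` with `α ^ 2 = B z z`,
`β ^ 2 = B x x` (`k` is finite of characteristic 2, so every element is a square: `FiniteField.isSquare_of_char_two`); then
`y = α x + β z` is fixed, `B y y = α ^ 2 B x x + β ^ 2 B z z + 2 α β B x z = 0`, and `y ≠ 0` because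
`B x y = α B x x ≠ 0`.
(4) with `x` as in (3): `x ∈ x^⊥`, `U₁ = x^⊥ / <x>` has dimension `2 r - 2`, with the induced operators and form (symmetric,
nondegenerate, same relation). Take `v₀ = x`, lifts `v_1, ..., v_(2r-2) ∈ x^⊥` of the basis of `U₁`, and `v_(2r-1) = y` any vector
with `B x y ≠ 0`. For `1 ≤ j ≤ 2r-2`: `A g (v j) - v j ∈ span {v i | 1 ≤ i < j} + <x>`. For the last vector: `A g y - y ∈ x^⊥`,
because `B x (A g y) = χ (κ g) B x y`, and `A g` acts on the line `U / x^⊥` by the scalar `χ (κ g)`, for which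
`χ (κ g) ^ (2 ^ j) = 1`, so `(χ (κ g) - 1) ^ (2 ^ j) = 0` and `χ (κ g) = 1` (characteristic 2).
The form: `B x (v j) = 0` for `j ≤ 2 r - 2`, and for `1 ≤ i, j ≤ 2 r - 2` with `i + j + 1 < 2 r`, i.e.
`(i - 1) + (j - 1) + 1 < 2 (r - 1)`, by induction.
(Instead of quotients: a version for families of vectors, or matrices: choose a basis `x, w_1, ..., w_(2r-2), y` with
`w_i ∈ x^⊥`; the block of `w`'s gives matrices of size `2 r - 2`, to which the induction applies.)
-/

set_option autoImplicit false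
set_option linter.unusedSectionVars false

namespace Pool.Agent.Work.MP_787500_nt.PL

open Matrix

variable {k : Type*} [Field k] [Finite k] [CharP k 2] {n : ℕ} {G : Type*} [Group G] {κ : G → G}
  {A : G → Matrix (Fin n) (Fin n) k} {b : Matrix (Fin n) (Fin n) k} {χ : G → k}

private theorem exists_fixed {U : Type*} [AddCommGroup U] [Module k U] [Finite U] [Nontrivial U]
    (T : G → Module.End k U) (h1 : T 1 = 1) (hm : ∀ g h, T (g * h) = T g * T h)
    (h2 : ∀ g, ∃ j : ℕ, T g ^ 2 ^ j = 1) : ∃ x : U, x ≠ 0 ∧ ∀ g, T g x = x := by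
  let φ : G →* Module.End k U := ⟨⟨T, h1⟩, hm⟩
  let ψ : G →* (Module.End k U)ˣ := φ.toHomUnits
  have hP : IsPGroup 2 ψ.range := by
    rintro ⟨_, g, rfl⟩
    obtain ⟨j, hj⟩ := h2 g
    refine ⟨j, ?_⟩
    apply Subtype.ext
    apply Units.ext
    exact hj
  have hcard : 2 ∣ Nat.card U := by
    obtain ⟨u, hu⟩ := exists_ne (0 : U)
    have h20 : (2 : ℕ) • u = 0 := by
      rw [← Nat.cast_smul_eq_nsmul k]
      rw [CharP.cast_eq_zero k 2, zero_smul]
    have ho : addOrderOf u = 2 := addOrderOf_eq_prime h20 hu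
    rw [← ho]
    exact addOrderOf_dvd_natCard u
  obtain ⟨b, hb, hne⟩ := hP.exists_fixed_point_of_prime_dvd_card_of_fixed_point U hcard (a := 0)
    (fun g => smul_zero _)
  exact ⟨b, hne.symm, fun g => hb ⟨ψ g, g, rfl⟩⟩

private theorem exists_fixed_mod {U : Type*} [AddCommGroup U] [Module k U] [Finite U]
    (T : G → Module.End k U) (h1 : T 1 = 1) (hm : ∀ g h, T (g * h) = T g * T h)
    (h2 : ∀ g, ∃ j : ℕ, T g ^ 2 ^ j = 1) {V W : Submodule k U}
    (hV : ∀ g, ∀ x ∈ V, T g x ∈ V) (hW : ∀ g, ∀ x ∈ W, T g x ∈ W) (hVW : ∃ w ∈ W, w ∉ V) :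
    ∃ x ∈ W, x ∉ V ∧ ∀ g, T g x - x ∈ V := by
  have hV' : ∀ g, V ≤ V.comap (T g) := hV
  have hfin : Finite (U ⧸ V) := Finite.of_surjective V.mkQ V.mkQ_surjective
  have hst : ∀ g, ∀ q ∈ W.map V.mkQ, V.mapQ V (T g) (hV' g) q ∈ W.map V.mkQ := by
    rintro g _ ⟨w, hw, rfl⟩
    exact ⟨T g w, hW g w hw, by simp⟩
  let S : G → Module.End k (W.map V.mkQ) := fun g => (V.mapQ V (T g) (hV' g)).restrict (hst g)
  have hS : ∀ g (u : U) (hu : V.mkQ u ∈ W.map V.mkQ), ((S g ⟨V.mkQ u, hu⟩ : W.map V.mkQ) : U ⧸ V) =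
      V.mkQ (T g u) := by
    intro g u hu
    rfl
  have hnt : Nontrivial (W.map V.mkQ) := by
    obtain ⟨w, hw, hwV⟩ := hVW
    refine ⟨⟨⟨V.mkQ w, ⟨w, hw, rfl⟩⟩, 0, fun h => hwV ?_⟩⟩
    have := congrArg Subtype.val h
    exact (Submodule.Quotient.mk_eq_zero V).1 this
  have S1 : S 1 = 1 := by
    apply LinearMap.ext
    rintro ⟨q, hq⟩
    apply Subtype.ext
    obtain ⟨u, rfl⟩ := V.mkQ_surjective q
    rw [hS, h1]
    rfl
  have Sm : ∀ g h, S (g * h) = S g * S h := by
    intro g h
    apply LinearMap.ext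
    rintro ⟨q, hq⟩
    apply Subtype.ext
    obtain ⟨u, rfl⟩ := V.mkQ_surjective q
    rw [hS, hm]
    rfl
  have S2 : ∀ g, ∃ j : ℕ, S g ^ 2 ^ j = 1 := by
    intro g
    obtain ⟨j, hj⟩ := h2 g
    refine ⟨j, ?_⟩
    apply LinearMap.ext
    rintro ⟨q, hq⟩
    apply Subtype.ext
    obtain ⟨u, rfl⟩ := V.mkQ_surjective q
    have key : ∀ m : ℕ, (((S g ^ m) ⟨V.mkQ u, hq⟩ : W.map V.mkQ) : U ⧸ V) =
        V.mkQ ((T g ^ m) u) := by
      intro m
      induction m with
      | zero => rfl
      | succ m ih =>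
        rw [pow_succ', pow_succ', Module.End.mul_apply, Module.End.mul_apply]
        have : (((S g) ((S g ^ m) ⟨V.mkQ u, hq⟩) : W.map V.mkQ) : U ⧸ V) =
            V.mapQ V (T g) (hV' g) (((S g ^ m) ⟨V.mkQ u, hq⟩ : W.map V.mkQ) : U ⧸ V) := rfl
        rw [this, ih]
        rfl
    rw [key, hj]
    rfl
  obtain ⟨⟨q, hq⟩, hne, hfix⟩ := exists_fixed S S1 Sm S2
  obtain ⟨x, hx, rfl⟩ := hq
  refine ⟨x, hx, fun h => hne ?_, fun g => ?_⟩
  · apply Subtype.ext
    exact (Submodule.Quotient.mk_eq_zero V).2 h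
  · have := congrArg Subtype.val (hfix g)
    rw [hS] at this
    rw [← Submodule.Quotient.mk_eq_zero, Submodule.Quotient.mk_sub, sub_eq_zero]
    exact this

section form

variable {U : Type*} [AddCommGroup U] [Module k U] [Finite U] {T : G → Module.End k U}
  {B : LinearMap.BilinForm k U}

omit [Finite k] [CharP k 2] [Finite U] in
private theorem stab_orth (h1 : T 1 = 1) (hm : ∀ g h, T (g * h) = T g * T h)
    (hBs : ∀ x y, B x y = B y x) (hd : ∀ g x y, B (T g x) (T (κ g) y) = χ g * B x y)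
    {V : Submodule k U} (hV : ∀ g, ∀ x ∈ V, T g x ∈ V) (g : G) {x : U}
    (hx : x ∈ B.orthogonal V) : T g x ∈ B.orthogonal V := by
  rw [LinearMap.BilinForm.mem_orthogonal_iff] at hx ⊢
  intro v hv
  have hv' : T (κ g) (T (κ g)⁻¹ v) = v := by
    rw [← Module.End.mul_apply, ← hm, mul_inv_cancel, h1, Module.End.one_apply]
  rw [hBs, ← hv', hd, hBs, hx _ (hV _ _ hv), mul_zero]

private theorem exists_not_mem {V W : Submodule k U}
    (h : Module.finrank k V < Module.finrank k W) : ∃ w ∈ W, w ∉ V := by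
  by_contra hcon
  push Not at hcon
  exact absurd (Submodule.finrank_mono (hcon : W ≤ V)) (not_le.2 h)

private theorem finrank_sup_le (V : Submodule k U) (y : U) :
    Module.finrank k (V ⊔ Submodule.span k {y} : Submodule k U) ≤ Module.finrank k V + 1 := by
  refine (Submodule.finrank_add_le_finrank_add_finrank V _).trans ?_
  have := finrank_span_le_card (R := k) ({y} : Set U)
  simp only [Set.toFinset_singleton, Finset.card_singleton] at this
  omega

private theorem exists_step (h1 : T 1 = 1) (hm : ∀ g h, T (g * h) = T g * T h)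
    (h2 : ∀ g, ∃ j : ℕ, T g ^ 2 ^ j = 1)
    (hBs : ∀ x y, B x y = B y x) (hB : B.Nondegenerate)
    (hd : ∀ g x y, B (T g x) (T (κ g) y) = χ g * B x y) (hn : Even (Module.finrank k U))
    {V : Submodule k U} (hV : ∀ g, ∀ x ∈ V, T g x ∈ V)
    (hdim : 2 * Module.finrank k V < Module.finrank k U) :
    ∃ y ∈ B.orthogonal V, y ∉ V ∧ (∀ g, T g y - y ∈ V) ∧ B y y = 0 := by
  have hfd : FiniteDimensional k U := inferInstance
  have hW : Module.finrank k (B.orthogonal V) = Module.finrank k U - Module.finrank k V :=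
    LinearMap.BilinForm.finrank_orthogonal hB V
  obtain ⟨x, hxW, hxV, hx⟩ := exists_fixed_mod T h1 hm h2 hV
    (fun g x hx => stab_orth h1 hm hBs hd hV g hx) (exists_not_mem (by omega))
  by_cases hxx : B x x = 0
  · exact ⟨x, hxW, hxV, hx, hxx⟩
  set V1 : Submodule k U := V ⊔ Submodule.span k {x} with hV1
  have hxV1 : x ∈ V1 := Submodule.mem_sup_right (Submodule.mem_span_singleton_self x)
  have hVV1 : V ≤ V1 := le_sup_left
  have hst1 : ∀ g, ∀ u ∈ V1, T g u ∈ V1 := by
    intro g u hu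
    obtain ⟨v, hv, w, hw, rfl⟩ := Submodule.mem_sup.1 hu
    obtain ⟨c, rfl⟩ := Submodule.mem_span_singleton.1 hw
    rw [map_add, map_smul]
    refine V1.add_mem (hVV1 (hV g v hv)) (V1.smul_mem c ?_)
    have : T g x = (T g x - x) + x := by abel
    rw [this]
    exact V1.add_mem (hVV1 (hx g)) hxV1
  have hW1 : Module.finrank k (B.orthogonal V1) = Module.finrank k U - Module.finrank k V1 :=
    LinearMap.BilinForm.finrank_orthogonal hB V1
  have hle := finrank_sup_le V x
  rw [← hV1] at hle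
  obtain ⟨m, hmm⟩ := hn
  obtain ⟨z, hzW, hzV, hz⟩ := exists_fixed_mod T h1 hm h2 hV
    (fun g x hx => stab_orth h1 hm hBs hd hst1 g hx) (exists_not_mem (by omega))
  have hzW' : z ∈ B.orthogonal V := by
    rw [LinearMap.BilinForm.mem_orthogonal_iff] at hzW ⊢
    exact fun v hv => hzW v (hVV1 hv)
  have hxz : B x z = 0 := (LinearMap.BilinForm.mem_orthogonal_iff.1 hzW) x hxV1
  have hzx : B z x = 0 := by rw [hBs, hxz]
  by_cases hzz : B z z = 0
  · exact ⟨z, hzW', hzV, hz, hzz⟩
  obtain ⟨α, hα⟩ := FiniteField.isSquare_of_char_two (ringChar.eq k 2) (B z z)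
  obtain ⟨β, hβ⟩ := FiniteField.isSquare_of_char_two (ringChar.eq k 2) (B x x)
  refine ⟨α • x + β • z, Submodule.add_mem _ (Submodule.smul_mem _ _ hxW)
    (Submodule.smul_mem _ _ hzW'), fun hy => ?_, fun g => ?_, ?_⟩
  · have h0 := (LinearMap.BilinForm.mem_orthogonal_iff.1 hxW) _ hy
    rw [map_add, map_smul, map_smul, LinearMap.add_apply, LinearMap.smul_apply,
      LinearMap.smul_apply, hzx, smul_zero, add_zero, smul_eq_mul, mul_eq_zero] at h0
    rcases h0 with h0 | h0
    · rw [h0, zero_mul] at hα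
      exact hzz hα
    · exact hxx h0
  · have : T g (α • x + β • z) - (α • x + β • z) = α • (T g x - x) + β • (T g z - z) := by
      rw [map_add, map_smul, map_smul, smul_sub, smul_sub]
      abel
    rw [this]
    exact V.add_mem (V.smul_mem _ (hx g)) (V.smul_mem _ (hz g))
  · simp only [map_add, map_smul, LinearMap.add_apply, LinearMap.smul_apply, hxz, hzx,
      smul_eq_mul, mul_zero, add_zero, zero_add]
    have e1 : α * (α * B x x) = B z z * B x x := by rw [hα]; ring
    have e2 : β * (β * B z z) = B z z * B x x := by rw [hβ]; ring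
    rw [e1, e2]
    exact CharTwo.add_self_eq_zero _

private theorem exists_chain (h1 : T 1 = 1) (hm : ∀ g h, T (g * h) = T g * T h)
    (h2 : ∀ g, ∃ j : ℕ, T g ^ 2 ^ j = 1)
    (hBs : ∀ x y, B x y = B y x) (hB : B.Nondegenerate)
    (hd : ∀ g x y, B (T g x) (T (κ g) y) = χ g * B x y) {r : ℕ}
    (hn : Module.finrank k U = 2 * r) (i : ℕ) (hi : i ≤ r) :
    ∃ F : ℕ → Submodule k U, (∀ j < i, F j ≤ F (j + 1)) ∧
      (∀ j < i, ∀ g, ∀ x ∈ F (j + 1), T g x - x ∈ F j) ∧
      (∀ j ≤ i, Module.finrank k (F j) = j) ∧ F i ≤ B.orthogonal (F i) := by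
  induction i with
  | zero =>
    refine ⟨fun _ => ⊥, by simp, by simp, ?_, bot_le⟩
    intro j hj
    obtain rfl : j = 0 := by omega
    exact finrank_bot k U
  | succ i ih =>
    obtain ⟨F, hF1, hF2, hF3, hF4⟩ := ih (by omega)
    have hst : ∀ g, ∀ x ∈ F i, T g x ∈ F i := by
      intro g x hx
      rcases Nat.eq_zero_or_pos i with h0 | h0
      · have h00 : Module.finrank k (F i) = 0 := by rw [hF3 i le_rfl, h0]
        rw [Submodule.finrank_eq_zero] at h00
        rw [h00, Submodule.mem_bot] at hx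
        rw [hx, map_zero]
        exact Submodule.zero_mem _
      · obtain ⟨l, rfl⟩ : ∃ l, i = l + 1 := ⟨i - 1, by omega⟩
        have := hF2 l (by omega) g x hx
        have h3 : T g x = (T g x - x) + x := by abel
        rw [h3]
        exact Submodule.add_mem _ (hF1 l (by omega) this) hx
    obtain ⟨y, hyW, hyV, hy, hyy⟩ := exists_step h1 hm h2 hBs hB hd ⟨r, by omega⟩ hst
      (by rw [hF3 i le_rfl]; omega)
    have hyself : y ∈ F i ⊔ Submodule.span k {y} :=
      Submodule.mem_sup_right (Submodule.mem_span_singleton_self y)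
    refine ⟨fun j => if j ≤ i then F j else F i ⊔ Submodule.span k {y}, ?_, ?_, ?_, ?_⟩
    · intro j hj
      beta_reduce
      by_cases hji : j < i
      · rw [if_pos hji.le, if_pos (by omega)]
        exact hF1 j hji
      · obtain rfl : j = i := by omega
        rw [if_pos le_rfl, if_neg (by omega)]
        exact le_sup_left
    · intro j hj g x hx
      beta_reduce at hx ⊢
      by_cases hji : j < i
      · rw [if_pos hji.le]
        rw [if_pos (by omega)] at hx
        exact hF2 j hji g x hx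
      · obtain rfl : j = i := by omega
        rw [if_pos le_rfl]
        rw [if_neg (by omega)] at hx
        obtain ⟨v, hv, w, hw, rfl⟩ := Submodule.mem_sup.1 hx
        obtain ⟨c, rfl⟩ := Submodule.mem_span_singleton.1 hw
        have : T g (v + c • y) - (v + c • y) = (T g v - v) + c • (T g y - y) := by
          rw [map_add, map_smul, smul_sub]
          abel
        rw [this]
        exact Submodule.add_mem _ (Submodule.sub_mem _ (hst g v hv) hv)
          (Submodule.smul_mem _ _ (hy g))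
    · intro j hj
      beta_reduce
      by_cases hji : j ≤ i
      · rw [if_pos hji]
        exact hF3 j hji
      · obtain rfl : j = i + 1 := by omega
        rw [if_neg hji]
        have h4 := finrank_sup_le (F i) y
        have h5 : Module.finrank k (F i) <
            Module.finrank k (F i ⊔ Submodule.span k {y} : Submodule k U) := by
          refine Submodule.finrank_lt_finrank_of_lt (lt_of_le_of_ne le_sup_left ?_)
          intro h
          exact hyV (h ▸ hyself)
        rw [hF3 i le_rfl] at h4 h5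
        omega
    · beta_reduce
      rw [if_neg (by omega)]
      intro u hu
      rw [LinearMap.BilinForm.mem_orthogonal_iff]
      intro u' hu'
      obtain ⟨v, hv, w, hw, rfl⟩ := Submodule.mem_sup.1 hu
      obtain ⟨c, rfl⟩ := Submodule.mem_span_singleton.1 hw
      obtain ⟨v', hv', w', hw', rfl⟩ := Submodule.mem_sup.1 hu'
      obtain ⟨c', rfl⟩ := Submodule.mem_span_singleton.1 hw'
      have e1 : B v' v = 0 := (LinearMap.BilinForm.mem_orthogonal_iff.1 (hF4 hv)) v' hv'
      have e2 : B v' y = 0 := (LinearMap.BilinForm.mem_orthogonal_iff.1 hyW) v' hv'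
      have e3 : B y v = 0 := by
        rw [hBs]
        exact (LinearMap.BilinForm.mem_orthogonal_iff.1 hyW) v hv
      simp only [map_add, map_smul, LinearMap.add_apply, LinearMap.smul_apply, e1, e2, e3, hyy,
        smul_zero, add_zero]

private theorem chi_eq_one [Nontrivial U] (h1 : T 1 = 1) (hm : ∀ g h, T (g * h) = T g * T h)
    (h2 : ∀ g, ∃ j : ℕ, T g ^ 2 ^ j = 1) (hB : B.Nondegenerate) (hκ : ∀ g, κ (κ g) = g)
    (hd : ∀ g x y, B (T g x) (T (κ g) y) = χ g * B x y) (g : G) : χ g = 1 := by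
  have key : ∀ g, χ (κ g) = 1 := by
    intro g
    obtain ⟨x, hx0, hx⟩ := exists_fixed T h1 hm h2
    obtain ⟨y, hy⟩ : ∃ y, B x y ≠ 0 := by
      by_contra hcon
      push Not at hcon
      exact hx0 (hB.1 x hcon)
    have hone : ∀ u, B x (T g u) = χ (κ g) * B x u := by
      intro u
      have := hd (κ g) x u
      rwa [hκ, hx] at this
    have hpow : ∀ m : ℕ, B x ((T g ^ m) y) = χ (κ g) ^ m * B x y := by
      intro m
      induction m with
      | zero => simp
      | succ m ih => rw [pow_succ', Module.End.mul_apply, hone, ih, pow_succ']; ring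
    obtain ⟨j, hj⟩ := h2 g
    have h3 := hpow (2 ^ j)
    rw [hj, Module.End.one_apply] at h3
    have h4 : χ (κ g) ^ 2 ^ j = 1 := by
      have := mul_right_cancel₀ hy (h3.symm.trans (one_mul (B x y)).symm)
      exact this
    have h5 : (χ (κ g) - 1) ^ 2 ^ j = 0 := by
      have : Fact (Nat.Prime 2) := ⟨Nat.prime_two⟩
      rw [sub_pow_char_pow, h4, one_pow, sub_self]
    exact sub_eq_zero.1 (pow_eq_zero_iff (by positivity) |>.1 h5)
  rw [← hκ g]
  exact key (κ g)

private theorem exists_full (h1 : T 1 = 1) (hm : ∀ g h, T (g * h) = T g * T h)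
    (h2 : ∀ g, ∃ j : ℕ, T g ^ 2 ^ j = 1)
    (hBs : ∀ x y, B x y = B y x) (hB : B.Nondegenerate) (hκ : ∀ g, κ (κ g) = g)
    (hd : ∀ g x y, B (T g x) (T (κ g) y) = χ g * B x y) {r n : ℕ} (hnr : n = 2 * r)
    (hn : Module.finrank k U = n) :
    ∃ F : ℕ → Submodule k U, (∀ j < n, F j ≤ F (j + 1)) ∧
      (∀ j < n, ∀ g, ∀ x ∈ F (j + 1), T g x - x ∈ F j) ∧
      (∀ j ≤ n, Module.finrank k (F j) = j) ∧
      ∀ i j, i + j ≤ n → ∀ x ∈ F i, ∀ y ∈ F j, B x y = 0 := by
  have hfd : FiniteDimensional k U := inferInstance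
  obtain ⟨F, hF1, hF2, hF3, hF4⟩ := exists_chain h1 hm h2 hBs hB hd (hn.trans hnr) r le_rfl
  have hlag : B.orthogonal (F r) = F r := by
    symm
    refine Submodule.eq_of_le_of_finrank_eq hF4 ?_
    rw [LinearMap.BilinForm.finrank_orthogonal hB, hF3 r le_rfl]
    omega
  have hmono : ∀ i j, i ≤ j → j ≤ r → F i ≤ F j := by
    intro i j hij
    induction j, hij using Nat.le_induction with
    | base => exact fun _ => le_rfl
    | succ j hj ih => exact fun h => (ih (by omega)).trans (hF1 j (by omega))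
  have hupper : ∀ i < r, ∀ g, ∀ x ∈ B.orthogonal (F i), T g x - x ∈ B.orthogonal (F (i + 1)) := by
    intro i hi g x hx
    have hnt : Nontrivial U := by
      apply Module.nontrivial_of_finrank_pos (R := k)
      omega
    have hχ : χ g = 1 := chi_eq_one h1 hm h2 hB hκ hd g
    rw [LinearMap.BilinForm.mem_orthogonal_iff] at hx ⊢
    intro v hv
    have hv' : T (κ g) (T (κ g)⁻¹ v) = v := by
      rw [← Module.End.mul_apply, ← hm, mul_inv_cancel, h1, Module.End.one_apply]
    have e1 : B v (T g x) = B x (T (κ g)⁻¹ v) := by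
      have := hd g x (T (κ g)⁻¹ v)
      rw [hv', hχ, one_mul] at this
      rw [hBs, this]
    have e2 : B x (T (κ g)⁻¹ v - v) = 0 := by
      rw [hBs]
      exact hx _ (hF2 i hi _ v hv)
    rw [map_sub, sub_eq_zero] at e2
    rw [map_sub, e1, e2, hBs, sub_self]
  refine ⟨fun j => if j ≤ r then F j else B.orthogonal (F (n - j)), ?_, ?_, ?_, ?_⟩
  · intro j hj
    beta_reduce
    by_cases hjr : j < r
    · rw [if_pos hjr.le, if_pos (by omega)]
      exact hF1 j hjr
    · have e : (if j ≤ r then F j else B.orthogonal (F (n - j))) =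
          B.orthogonal (F (n - (j + 1) + 1)) := by
        by_cases h : j ≤ r
        · obtain rfl : j = r := by omega
          rw [if_pos le_rfl, show n - (j + 1) + 1 = j by omega, hlag]
        · rw [if_neg h, show n - (j + 1) + 1 = n - j by omega]
      rw [e, if_neg (by omega)]
      intro x hx
      rw [LinearMap.BilinForm.mem_orthogonal_iff] at hx ⊢
      exact fun v hv => hx v (hF1 _ (by omega) hv)
  · intro j hj g x hx
    beta_reduce at hx ⊢
    by_cases hjr : j < r
    · rw [if_pos hjr.le]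
      rw [if_pos (by omega)] at hx
      exact hF2 j hjr g x hx
    · have e : (if j ≤ r then F j else B.orthogonal (F (n - j))) =
          B.orthogonal (F (n - (j + 1) + 1)) := by
        by_cases h : j ≤ r
        · obtain rfl : j = r := by omega
          rw [if_pos le_rfl, show n - (j + 1) + 1 = j by omega, hlag]
        · rw [if_neg h, show n - (j + 1) + 1 = n - j by omega]
      rw [e]
      rw [if_neg (by omega)] at hx
      exact hupper _ (by omega) g x hx
  · intro j hj
    beta_reduce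
    by_cases h : j ≤ r
    · rw [if_pos h]
      exact hF3 j h
    · rw [if_neg h, LinearMap.BilinForm.finrank_orthogonal hB, hF3 _ (by omega), hn]
      omega
  · intro i j hij x hx y hy
    beta_reduce at hx hy
    by_cases hi : i ≤ r
    · rw [if_pos hi] at hx
      by_cases hj : j ≤ r
      · rw [if_pos hj] at hy
        exact (LinearMap.BilinForm.mem_orthogonal_iff.1 (hF4 (hmono j r hj le_rfl hy))) x
          (hmono i r hi le_rfl hx)
      · rw [if_neg hj] at hy
        exact (LinearMap.BilinForm.mem_orthogonal_iff.1 hy) x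
          (hmono i (n - j) (by omega) (by omega) hx)
    · rw [if_neg hi] at hx
      rw [if_pos (by omega)] at hy
      rw [hBs]
      exact (LinearMap.BilinForm.mem_orthogonal_iff.1 hx) y
        (hmono j (n - i) (by omega) (by omega) hy)

end form

theorem exists_flag (hn : Even n) (h1 : A 1 = 1) (hm : ∀ g h, A (g * h) = A g * A h)
    (hκ : ∀ g, κ (κ g) = g) (hbs : bᵀ = b) (hb : b.det ≠ 0)
    (hd : ∀ g, (A g)ᵀ * b * A (κ g) = χ g • b) (h2 : ∀ g, ∃ j : ℕ, A g ^ 2 ^ j = 1) :
    ∃ P : Matrix (Fin n) (Fin n) k, P.det ≠ 0 ∧ (∀ g i j, j < i → (P⁻¹ * A g * P) i j = 0) ∧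
      (∀ g i, (P⁻¹ * A g * P) i i = 1) ∧
      ∀ i j : Fin n, (i : ℕ) + j + 1 < n → (Pᵀ * b * P) i j = 0 := by
  classical
  obtain ⟨r, hr⟩ := hn
  set T : G → Module.End k (Fin n → k) := fun g => Matrix.toLin' (A g) with hT
  set B : LinearMap.BilinForm k (Fin n → k) := Matrix.toBilin' b with hBdef
  have hTa : ∀ g x, T g x = A g *ᵥ x := fun g x => Matrix.toLin'_apply _ _
  have hBa : ∀ x y, B x y = x ⬝ᵥ b *ᵥ y := fun x y => Matrix.toBilin'_apply' _ _ _
  have T1 : T 1 = 1 := by
    simp only [hT]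
    rw [h1, Matrix.toLin'_one]
    rfl
  have Tm : ∀ g h, T (g * h) = T g * T h := by
    intro g h
    simp only [hT]
    rw [hm, Matrix.toLin'_mul]
    rfl
  have T2 : ∀ g, ∃ j : ℕ, T g ^ 2 ^ j = 1 := by
    intro g
    obtain ⟨j, hj⟩ := h2 g
    refine ⟨j, ?_⟩
    have : ∀ m : ℕ, T g ^ m = Matrix.toLin' (A g ^ m) := by
      intro m
      induction m with
      | zero => rw [pow_zero, pow_zero, Matrix.toLin'_one]; rfl
      | succ m ih => rw [pow_succ, pow_succ, Matrix.toLin'_mul, ih]; rfl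
    rw [this, hj, Matrix.toLin'_one]
    rfl
  have Bs : ∀ x y, B x y = B y x := by
    intro x y
    rw [hBa, hBa, Matrix.dotProduct_mulVec, ← Matrix.mulVec_transpose, hbs, dotProduct_comm]
  have Bn : B.Nondegenerate := LinearMap.BilinForm.nondegenerate_toBilin'_iff_det_ne_zero.2 hb
  have Bd : ∀ g x y, B (T g x) (T (κ g) y) = χ g * B x y := by
    intro g x y
    rw [hBa, hBa, hTa, hTa]
    have e1 : (A g *ᵥ x) ⬝ᵥ b *ᵥ A (κ g) *ᵥ y = x ⬝ᵥ ((A g)ᵀ * b * A (κ g)) *ᵥ y := by
      rw [← Matrix.mulVec_mulVec, ← Matrix.mulVec_mulVec, Matrix.dotProduct_mulVec x (A g)ᵀ,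
        ← Matrix.mulVec_transpose, Matrix.transpose_transpose]
    rw [e1, hd, Matrix.smul_mulVec, dotProduct_smul, smul_eq_mul]
  obtain ⟨F, hF1, hF2, hF3, hF4⟩ := exists_full T1 Tm T2 Bs Bn hκ Bd (r := r) (n := n) (by omega)
    (by rw [Module.finrank_fin_fun])
  have hex : ∀ j : Fin n, ∃ v ∈ F (j + 1), v ∉ F j := by
    intro j
    apply exists_not_mem
    rw [hF3 _ (by omega), hF3 _ (by omega)]
    omega
  choose v hv1 hv2 using hex
  set P : Matrix (Fin n) (Fin n) k := Matrix.of (fun i j => v j i) with hP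
  have hcol : ∀ j, P *ᵥ Pi.single j 1 = v j := by
    intro j
    rw [Matrix.mulVec_single_one]
    rfl
  have hcoord : ∀ m ≤ n, ∀ x ∈ F m, ∃ c : Fin n → k, (∀ i : Fin n, m ≤ i → c i = 0) ∧
      P *ᵥ c = x := by
    intro m
    induction m with
    | zero =>
      intro _ x hx
      have h0 := hF3 0 (by omega)
      rw [Submodule.finrank_eq_zero] at h0
      rw [h0, Submodule.mem_bot] at hx
      exact ⟨0, fun _ _ => rfl, by rw [hx, Matrix.mulVec_zero]⟩
    | succ m ih =>
      intro hmn x hx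
      have hsup : F m ⊔ Submodule.span k {v ⟨m, by omega⟩} = F (m + 1) := by
        refine Submodule.eq_of_le_of_finrank_le (sup_le (hF1 m (by omega)) ?_) ?_
        · rw [Submodule.span_singleton_le_iff_mem]
          exact hv1 ⟨m, by omega⟩
        · rw [hF3 _ hmn]
          have h5 : Module.finrank k (F m) <
              Module.finrank k (F m ⊔ Submodule.span k {v ⟨m, by omega⟩} :
                Submodule k (Fin n → k)) := by
            refine Submodule.finrank_lt_finrank_of_lt (lt_of_le_of_ne le_sup_left ?_)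
            intro h
            refine hv2 ⟨m, by omega⟩ ?_
            show v ⟨m, by omega⟩ ∈ F m
            rw [h]
            exact Submodule.mem_sup_right (Submodule.mem_span_singleton_self _)
          rw [hF3 m (by omega)] at h5
          omega
      rw [← hsup] at hx
      obtain ⟨x', hx', w, hw, rfl⟩ := Submodule.mem_sup.1 hx
      obtain ⟨a, rfl⟩ := Submodule.mem_span_singleton.1 hw
      obtain ⟨c, hc, hc'⟩ := ih (by omega) x' hx'
      refine ⟨c + a • Pi.single ⟨m, by omega⟩ 1, fun i hi => ?_, ?_⟩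
      · rw [Pi.add_apply, hc i (by omega), Pi.smul_apply, Pi.single_eq_of_ne, smul_zero, add_zero]
        intro h
        rw [h] at hi
        simp at hi
      · rw [Matrix.mulVec_add, Matrix.mulVec_smul, hc', hcol]
  have htop : F n = ⊤ := by
    apply Submodule.eq_top_of_finrank_eq
    rw [hF3 n le_rfl, Module.finrank_fin_fun]
  have hPu : IsUnit P := by
    rw [← Matrix.mulVec_surjective_iff_isUnit]
    intro x
    obtain ⟨c, -, hc⟩ := hcoord n le_rfl x (by rw [htop]; trivial)
    exact ⟨c, hc⟩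
  have hPd : IsUnit P.det := (Matrix.isUnit_iff_isUnit_det P).1 hPu
  have hinv : ∀ c, P⁻¹ *ᵥ P *ᵥ c = c := by
    intro c
    rw [Matrix.mulVec_mulVec, Matrix.nonsing_inv_mul _ hPd, Matrix.one_mulVec]
  have hlow : ∀ m ≤ n, ∀ x ∈ F m, ∀ i : Fin n, m ≤ i → (P⁻¹ *ᵥ x) i = 0 := by
    intro m hmn x hx i hi
    obtain ⟨c, hc, rfl⟩ := hcoord m hmn x hx
    rw [hinv]
    exact hc i hi
  have hent : ∀ g i j, (P⁻¹ * A g * P) i j = (P⁻¹ *ᵥ (A g *ᵥ v j - v j)) i +
      (Pi.single j 1 : Fin n → k) i := by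
    intro g i j
    have e1 : (P⁻¹ * A g * P) i j = (P⁻¹ *ᵥ (A g *ᵥ v j)) i := by
      rw [Matrix.mulVec_mulVec]
      rfl
    have e2 : P⁻¹ *ᵥ v j = Pi.single j 1 := by
      rw [← hcol j, hinv]
    rw [e1, Matrix.mulVec_sub, Pi.sub_apply, e2, sub_add_cancel]
  refine ⟨P, hPd.ne_zero, fun g i j hji => ?_, fun g i => ?_, fun i j hij => ?_⟩
  · have hz := hlow j (by omega) _ (hF2 j (by omega) g _ (hv1 j)) i (by omega)
    rw [hTa] at hz
    rw [hent, hz, Pi.single_eq_of_ne (ne_of_gt hji), add_zero]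
  · have hz := hlow i (by omega) _ (hF2 i (by omega) g _ (hv1 i)) i le_rfl
    rw [hTa] at hz
    rw [hent, hz, Pi.single_eq_same, zero_add]
  · have e1 : (Pᵀ * b * P) i j = B (v i) (v j) := by
      rw [hBa, Matrix.mul_assoc]
      rfl
    rw [e1]
    exact hF4 (i + 1) (j + 1) (by omega) _ (hv1 i) _ (hv1 j)

end Pool.Agent.Work.MP_787500_nt.PL
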