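import Mathlib
import Pool.Agent.Work.MP_787500_nt.PL.Defs
import Pool.Agent.Work.MP_787500_nt.PL.Fin
import Pool.Agent.Work.MP_787500_nt.PL.Bas
import Pool.Agent.Work.MP_787500_nt.GP.L03_Ring
import Pool.Agent.Work.MP_787500_nt.LX.Defs

/-!
# Module PL/Flag (size M): coordinates of a self-dual lattice adapted to a flag

`Q₀, R₀` from `PL.exists_bas`. The matrices `A₀ g = R₀ * ρ g * Q₀` are integral (`hst`: the columns of `Q₀` are in `L`),
`M₀ = Q₀ᵀ * b * Q₀` too, with unit determinant: they come from matrices over `O = OE E`. Reduce modulo the maximal ideal: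
`k = IsLocalRing.ResidueField (OE E)` is finite of characteristic 2 (`isLocal`, `res_finite`, `two_mem`: see the top of the proof
of `QG.main_gen4` in QG/Gen4.lean for the instances; an element of `OE E` has residue 0 iff its norm is `< 1`). The reductions
`Ā g`, `M̄` satisfy the hypotheses of `PL.exists_flag`: `Ā g ^ 2 ^ j = 1` for large `j` because
`R₀ * ρ (g ^ 2 ^ j) * Q₀ → 1` (`hpro`), so that for large `j` all entries of the difference with 1 have norm `< 1`; the dual
relation with the residues of the `χ g ∈ ℤ_[2]`: `(A₀ g)ᵀ M₀ A₀ (κ g) = χ g M₀` (compare `bil b (ρ g x) (ρ (κ g) y)` for columns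
`x, y` of `Q₀`). It gives `P̄`; lift its entries to `OE E`: `P` integral with `det P` a unit, so `P⁻¹` is integral and reduces to `P̄⁻¹`.
Put `Q = Q₀ * P`, `R = P⁻¹ * R₀`. Then `R * ρ g * Q` reduces to `P̄⁻¹ Ā g P̄` and `Qᵀ * b * Q` reduces to `P̄ᵀ M̄ P̄`; an entry
whose reduction is 0 has norm `< 1`, so `≤ ‖l‖ = ‖l‖ ^ 1` (`h.lmax`).
-/

set_option autoImplicit false
set_option linter.unusedSectionVars false

namespace Pool.Agent.Work.MP_787500_nt.PL

open Matrix
open Pool.Agent.Work.MP_787500_nt.PA (toE)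
open Pool.Agent.Work.MP_787500_nt.GP (OE bil Lat mem_OE)

variable {E : Type*} [NormedField E] [NormedAlgebra ℚ_[2] E] [FiniteDimensional ℚ_[2] E] {n : ℕ}
  {b : Matrix (Fin n) (Fin n) E} {l : OE E} {t : E →ₗ[ℚ_[2]] ℚ_[2]} {L : Submodule (OE E) (Fin n → E)}
  {G : Type*} [Group G] {κ : G → G} {ρ : G →* Matrix (Fin n) (Fin n) E} {χ : G → ℤ_[2]}

/-- the inclusion on matrices -/
private noncomputable abbrev cm (n : ℕ) (E : Type*) [NormedField E] [NormedAlgebra ℚ_[2] E] :
    Matrix (Fin n) (Fin n) (OE E) →+* Matrix (Fin n) (Fin n) E :=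
  (OE E).subtype.mapMatrix

private theorem cm_apply (A : Matrix (Fin n) (Fin n) (OE E)) (i j : Fin n) :
    cm n E A i j = (A i j : E) := rfl

private theorem cm_inj {A B : Matrix (Fin n) (Fin n) (OE E)} (h : cm n E A = cm n E B) : A = B := by
  ext i j
  exact congrFun (congrFun h i) j

private theorem cm_transpose (A : Matrix (Fin n) (Fin n) (OE E)) : cm n E Aᵀ = (cm n E A)ᵀ := rfl

private theorem cm_det (A : Matrix (Fin n) (Fin n) (OE E)) : (cm n E A).det = ((A.det : OE E) : E) :=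
  ((OE E).subtype.map_det A).symm

private theorem exists_cm (A : Matrix (Fin n) (Fin n) E) (h : ∀ i j, ‖A i j‖ ≤ 1) :
    ∃ B : Matrix (Fin n) (Fin n) (OE E), cm n E B = A :=
  ⟨fun i j => ⟨A i j, h i j⟩, rfl⟩

private theorem dual_mat (hd : ∀ g x y, bil b (ρ g *ᵥ x) (ρ (κ g) *ᵥ y) = toE E (χ g) * bil b x y)
    (g : G) : (ρ g)ᵀ * b * ρ (κ g) = toE E (χ g) • b := by
  ext i j
  have h := hd g (Pi.single i 1) (Pi.single j 1)
  simp only [bil] at h
  have e1 : (ρ g *ᵥ Pi.single i 1) ⬝ᵥ (b *ᵥ (ρ (κ g) *ᵥ Pi.single j 1)) =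
      ((ρ g)ᵀ * b * ρ (κ g)) i j := by
    rw [← vecMul_transpose (ρ g) (Pi.single i 1), ← dotProduct_mulVec, mulVec_mulVec, mulVec_mulVec,
      single_one_dotProduct, mulVec_single_one]
    rfl
  have e2 : (Pi.single i (1 : E)) ⬝ᵥ (b *ᵥ Pi.single j 1) = b i j := by
    rw [single_one_dotProduct, mulVec_single_one]
    rfl
  rw [e1, e2] at h
  rw [h, Matrix.smul_apply, smul_eq_mul]

theorem exists_flagB (hn : Even n) (h : Lat b l t L) (hst : ∀ g, ∀ x ∈ L, ρ g *ᵥ x ∈ L)
    (hκ : ∀ g, κ (κ g) = g)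
    (hd : ∀ g x y, bil b (ρ g *ᵥ x) (ρ (κ g) *ᵥ y) = toE E (χ g) * bil b x y)
    (hpro : ∀ g, Filter.Tendsto (fun k : ℕ => ρ (g ^ 2 ^ k)) Filter.atTop (nhds 1)) :
    ∃ Q R, FlagB (fun g => ρ g) b Q R (l : E) 1 := by
  classical
  have hloc : IsLocalRing (OE E) := GP.isLocal E
  have hfin : Finite (IsLocalRing.ResidueField (OE E)) := GP.res_finite
  have h20 : (2 : IsLocalRing.ResidueField (OE E)) = 0 := by
    have h1 := (IsLocalRing.residue_eq_zero_iff (2 : OE E)).2 GP.two_mem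
    rwa [map_ofNat] at h1
  have hchar : CharP (IsLocalRing.ResidueField (OE E)) 2 :=
    CharTwo.of_one_ne_zero_of_two_eq_zero one_ne_zero h20
  obtain ⟨Q₀, R₀, hRQ, hQR, hmem, hMint, hMdet⟩ := exists_bas h
  have hcol : ∀ j, Q₀ *ᵥ Pi.single j 1 ∈ L := by
    intro j
    rw [hmem]
    intro i
    rw [mulVec_mulVec, hRQ, one_mulVec]
    by_cases hij : i = j
    · subst hij
      simp
    · rw [Pi.single_eq_of_ne hij, norm_zero]
      exact zero_le_one
  have hA : ∀ g i j, ‖(R₀ * ρ g * Q₀) i j‖ ≤ 1 := by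
    intro g i j
    have h2 := (hmem _).1 (hst g _ (hcol j)) i
    rw [mulVec_mulVec, mulVec_mulVec, mulVec_single_one] at h2
    exact h2
  choose Ao hAo using fun g => exists_cm (R₀ * ρ g * Q₀) (hA g)
  obtain ⟨Mo, hMo⟩ := exists_cm (Q₀ᵀ * b * Q₀) hMint
  have hχ : ∀ g, ‖toE E (χ g)‖ ≤ 1 := by
    intro g
    rw [toE, norm_algebraMap']
    exact PadicInt.norm_le_one _
  let χo : G → OE E := fun g => ⟨toE E (χ g), hχ g⟩
  let res := IsLocalRing.residue (OE E)
  have hres : ∀ a : OE E, res a = 0 ↔ ‖(a : E)‖ < 1 := fun a => by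
    rw [← GP.mem_maximal a]
    exact IsLocalRing.residue_eq_zero_iff a
  let rm : Matrix (Fin n) (Fin n) (OE E) →+* Matrix (Fin n) (Fin n) (IsLocalRing.ResidueField (OE E)) :=
    res.mapMatrix
  have hAo1 : Ao 1 = 1 := by
    apply cm_inj
    rw [hAo, map_one, map_one, Matrix.mul_one, hRQ]
  have hAom : ∀ g g', Ao (g * g') = Ao g * Ao g' := by
    intro g g'
    apply cm_inj
    rw [map_mul, hAo, hAo, hAo, map_mul]
    calc R₀ * (ρ g * ρ g') * Q₀ = R₀ * ρ g * 1 * ρ g' * Q₀ := by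
          simp only [Matrix.mul_assoc, Matrix.one_mul]
      _ = R₀ * ρ g * Q₀ * (R₀ * ρ g' * Q₀) := by
          rw [← hQR]
          simp only [Matrix.mul_assoc]
  have hAop : ∀ g (k : ℕ), Ao (g ^ k) = Ao g ^ k := by
    intro g k
    induction k with
    | zero => rw [pow_zero, pow_zero, hAo1]
    | succ k ih => rw [pow_succ, pow_succ, hAom, ih]
  have hQRt : R₀ᵀ * Q₀ᵀ = 1 := by
    rw [← transpose_mul, hQR, transpose_one]
  have hMs : Moᵀ = Mo := by
    apply cm_inj
    rw [cm_transpose, hMo, transpose_mul, transpose_mul, transpose_transpose, h.symm,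
      Matrix.mul_assoc]
  have hdo : ∀ g, (Ao g)ᵀ * Mo * Ao (κ g) = χo g • Mo := by
    intro g
    apply cm_inj
    have e : cm n E (χo g • Mo) = toE E (χ g) • cm n E Mo := by
      ext i j
      rfl
    rw [e, map_mul, map_mul, cm_transpose, hAo, hAo, hMo]
    calc (R₀ * ρ g * Q₀)ᵀ * (Q₀ᵀ * b * Q₀) * (R₀ * ρ (κ g) * Q₀)
        = Q₀ᵀ * ((ρ g)ᵀ * (R₀ᵀ * Q₀ᵀ) * b * (Q₀ * R₀) * ρ (κ g)) * Q₀ := by
          simp only [transpose_mul, Matrix.mul_assoc]
      _ = Q₀ᵀ * ((ρ g)ᵀ * b * ρ (κ g)) * Q₀ := by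
          rw [hQRt, hQR, Matrix.mul_one, Matrix.mul_one]
      _ = toE E (χ g) • (Q₀ᵀ * b * Q₀) := by
          rw [dual_mat hd g, Matrix.mul_smul, Matrix.smul_mul]
  have hMd : ‖(Mo.det : E)‖ = 1 := by
    rw [← cm_det, hMo, hMdet]
  obtain ⟨P', hP', hPl, hPd, hPf⟩ := exists_flag (k := IsLocalRing.ResidueField (OE E)) (n := n) (G := G)
    (κ := κ) (A := fun g => rm (Ao g)) (b := rm Mo) (χ := fun g => res (χo g)) hn
    (by simp only [hAo1, map_one]) (fun g g' => by simp only [hAom, map_mul]) hκ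
    (by
      have e : (rm Mo)ᵀ = rm Moᵀ := rfl
      rw [e, hMs])
    (by
      have e : (rm Mo).det = res Mo.det := (res.map_det Mo).symm
      rw [e, Ne, hres, hMd]
      exact lt_irrefl _)
    (by
      intro g
      have e : (rm (Ao g))ᵀ = rm (Ao g)ᵀ := rfl
      have e2 : res (χo g) • rm Mo = rm (χo g • Mo) := by
        ext i j
        show res (χo g) * res (Mo i j) = res (χo g * Mo i j)
        rw [map_mul]
      rw [e, ← map_mul, ← map_mul, hdo, e2])
    (by
      intro g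
      have hcont : Filter.Tendsto (fun k : ℕ => R₀ * ρ (g ^ 2 ^ k) * Q₀) Filter.atTop (nhds 1) := by
        have hc : Continuous fun A : Matrix (Fin n) (Fin n) E => R₀ * A * Q₀ :=
          (continuous_const.matrix_mul continuous_id).matrix_mul continuous_const
        have h1 := (hc.tendsto 1).comp (hpro g)
        rwa [Matrix.mul_one, hRQ] at h1
      have hev : ∀ᶠ k : ℕ in Filter.atTop, ∀ i j, ‖(R₀ * ρ (g ^ 2 ^ k) * Q₀ - 1) i j‖ < 1 := by
        rw [Filter.eventually_all]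
        intro i
        rw [Filter.eventually_all]
        intro j
        have h1 : Filter.Tendsto (fun k : ℕ => ‖(R₀ * ρ (g ^ 2 ^ k) * Q₀ - 1) i j‖) Filter.atTop
            (nhds 0) := by
          have h2 : Continuous fun A : Matrix (Fin n) (Fin n) E => ‖(A - 1) i j‖ := by
            have h3 : Continuous fun A : Matrix (Fin n) (Fin n) E => (A - 1) i j := by
              have : (fun A : Matrix (Fin n) (Fin n) E => (A - 1) i j) =
                  fun A => A i j - (1 : Matrix (Fin n) (Fin n) E) i j := rfl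
              rw [this]
              exact (continuous_id.matrix_elem i j).sub continuous_const
            exact h3.norm
          have h4 := (h2.tendsto 1).comp hcont
          have h5 : ‖((1 : Matrix (Fin n) (Fin n) E) - 1) i j‖ = 0 := by
            rw [sub_self]
            exact norm_zero
          rw [h5] at h4
          exact h4
        exact h1.eventually (gt_mem_nhds one_pos)
      obtain ⟨k, hk⟩ := hev.exists
      refine ⟨k, ?_⟩
      rw [← map_pow, ← hAop]
      have e : (1 : Matrix (Fin n) (Fin n) (IsLocalRing.ResidueField (OE E))) = rm 1 := (map_one rm).symm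
      rw [e, ← sub_eq_zero, ← map_sub]
      ext i j
      show res ((Ao (g ^ 2 ^ k) - 1) i j) = 0
      rw [hres]
      have e2 : (((Ao (g ^ 2 ^ k) - 1) i j : OE E) : E) = (R₀ * ρ (g ^ 2 ^ k) * Q₀ - 1) i j := by
        rw [← cm_apply, map_sub, hAo, map_one]
      rw [e2]
      exact hk i j)
  choose P hP using fun i j => IsLocalRing.residue_surjective (P' i j)
  have hPm : rm (Matrix.of P) = P' := by
    ext i j
    exact hP i j
  set Po : Matrix (Fin n) (Fin n) (OE E) := Matrix.of P with hPo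
  have hPu : IsUnit Po.det := by
    by_contra hnu
    have h1 : Po.det ∈ IsLocalRing.maximalIdeal (OE E) := (IsLocalRing.mem_maximalIdeal _).2 hnu
    have h2 := (IsLocalRing.residue_eq_zero_iff _).2 h1
    have e : (rm Po).det = res Po.det := (res.map_det Po).symm
    rw [hPm] at e
    exact hP' (e.trans h2)
  have hPi : Po⁻¹ * Po = 1 := Matrix.nonsing_inv_mul _ hPu
  have hPi' : Po * Po⁻¹ = 1 := Matrix.mul_nonsing_inv _ hPu
  have hPinv : rm Po⁻¹ = P'⁻¹ := by
    symm
    apply Matrix.inv_eq_left_inv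
    rw [← hPm, ← map_mul, hPi, map_one]
  have hPn : ‖(Po.det : E)‖ = 1 := by
    have h1 : ¬ ‖(Po.det : E)‖ < 1 := by
      rw [← hres]
      have e : (rm Po).det = res Po.det := (res.map_det Po).symm
      rw [← e, hPm]
      exact hP'
    exact le_antisymm Po.det.2 (not_lt.1 h1)
  have eF : (Q₀ * cm n E Po)ᵀ * b * (Q₀ * cm n E Po) = cm n E (Poᵀ * Mo * Po) := by
    rw [map_mul, map_mul, cm_transpose, hMo]
    simp only [transpose_mul, Matrix.mul_assoc]
  have eR : ∀ g, cm n E Po⁻¹ * R₀ * ρ g * (Q₀ * cm n E Po) = cm n E (Po⁻¹ * Ao g * Po) := by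
    intro g
    rw [map_mul, map_mul, hAo]
    simp only [Matrix.mul_assoc]
  have hlt : ∀ A : Matrix (Fin n) (Fin n) (OE E), ∀ i j, rm A i j = 0 → ‖cm n E A i j‖ < 1 := by
    intro A i j hA0
    exact (hres _).1 hA0
  refine ⟨Q₀ * cm n E Po, cm n E Po⁻¹ * R₀, ?_, ?_, ?_, ?_, ?_, ?_, ?_, ?_⟩
  · calc cm n E Po⁻¹ * R₀ * (Q₀ * cm n E Po) = cm n E Po⁻¹ * (R₀ * Q₀) * cm n E Po := by
          simp only [Matrix.mul_assoc]
      _ = 1 := by rw [hRQ, Matrix.mul_one, ← map_mul, hPi, map_one]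
  · calc Q₀ * cm n E Po * (cm n E Po⁻¹ * R₀) = Q₀ * (cm n E Po * cm n E Po⁻¹) * R₀ := by
          simp only [Matrix.mul_assoc]
      _ = 1 := by rw [← map_mul, hPi', map_one, Matrix.mul_one, hQR]
  · intro i j
    rw [eF]
    exact (((Poᵀ * Mo * Po) i j : OE E)).2
  · rw [eF, cm_det, det_mul, det_mul, det_transpose]
    rw [Subring.coe_mul, Subring.coe_mul, norm_mul, norm_mul, hPn, hMd]
    norm_num
  · intro i j hij
    rw [eF, pow_one]
    refine h.lmax _ (hlt _ i j ?_)
    have e : rm (Poᵀ * Mo * Po) = P'ᵀ * rm Mo * P' := by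
      rw [map_mul, map_mul, ← hPm]
      rfl
    rw [e]
    exact hPf i j hij
  · intro g i j
    show ‖(cm n E Po⁻¹ * R₀ * ρ g * (Q₀ * cm n E Po)) i j‖ ≤ 1
    rw [eR]
    exact (((Po⁻¹ * Ao g * Po) i j : OE E)).2
  · intro g i j hij
    show ‖(cm n E Po⁻¹ * R₀ * ρ g * (Q₀ * cm n E Po)) i j‖ ≤ ‖(l : E)‖ ^ 1
    rw [eR, pow_one]
    refine h.lmax _ (hlt _ i j ?_)
    have e : rm (Po⁻¹ * Ao g * Po) = P'⁻¹ * rm (Ao g) * P' := by
      rw [map_mul, map_mul, hPinv, hPm]
    rw [e]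
    exact hPl g i j hij
  · intro g i
    show ‖(cm n E Po⁻¹ * R₀ * ρ g * (Q₀ * cm n E Po)) i i - 1‖ < 1
    rw [eR]
    have e : rm (Po⁻¹ * Ao g * Po) = P'⁻¹ * rm (Ao g) * P' := by
      rw [map_mul, map_mul, hPinv, hPm]
    have e1 : res ((Po⁻¹ * Ao g * Po) i i) = 1 := by
      have := hPd g i
      rw [← e] at this
      exact this
    have e2 : res ((Po⁻¹ * Ao g * Po) i i - 1) = 0 := by
      rw [map_sub, e1, map_one, sub_self]
    exact (hres _).1 e2

end Pool.Agent.Work.MP_787500_nt.PL
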