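import Mathlib
import Pool.Agent.Work.MP_787500_nt.PL.Defs
import Pool.Agent.Work.MP_787500_nt.GP.LDefs
import Pool.Agent.Work.MP_787500_nt.GP.L03_Ring
import Pool.Agent.Work.MP_787500_nt.GP.U_Bound
import Pool.Agent.Work.MP_787500_nt.LX.X2_Ring

/-!
# Module PL/TrivL (size M): a representation that is trivial at the level 1 satisfies `SH.HasL`

Matrices only. Given `E'`, `ι`, `m`, `l` as in `SH.HasL` (`m * m = ι l`, `‖ι x‖ = ‖x‖`, every `x : E` with `‖x‖ < 1` has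
`‖x‖ ≤ ‖l‖ = ‖m‖ ^ 2 ≤ ‖m‖`, `‖m‖ < 1`). Let `Q' = Q.map ι`, `R' = R.map ι`, `M = (Qᵀ * b * Q).map ι = Q'ᵀ * b.map ι * Q'`
(symmetric, integral, `‖det M‖ = 1`, so `M⁻¹ = (det M)⁻¹ • adjugate M` is integral: the norm is nonarchimedean,
`GP.` lemmas in L03_Ring.lean, `isUltra`...; determinants and minors of integral matrices are integral: use the ring `OE E'`
(`M` comes from a matrix over `OE E'`, whose determinant is a unit)).
* `L = {x | ∀ i, ‖(R' *ᵥ x) i‖ ≤ 1}`, a submodule over `OE E'`.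
* `Lo` = strictly lower triangular part of `M`, `Up = Loᵀ` = strictly upper part. `C₀ = M⁻¹ * (Lo - Up)`, `C = Q' * C₀ * R'`.
  `C₀ - 1 = - M⁻¹ * (diag + 2 Up)`, where `diag` (the diagonal of `M`) has entries of norm `< 1`, hence `≤ ‖m‖`, and
  `‖2‖ < 1`, so `‖2‖ ≤ ‖m‖`. So `C₀ = 1 + m • X` with `X` integral. Similarly `R' * mapRep ι ρ g * Q' = 1 + m • Y` with `Y`
  integral (the entries of `(R * ρ g * Q - 1)` have norm `≤ ‖l‖ ≤ ‖m‖`).
* stable: `R' *ᵥ (mapRep ι ρ g *ᵥ x) = (1 + m • Y) *ᵥ (R' *ᵥ x)`.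
* self-dual: `bil (b.map ι) x y = (R' x)ᵀ M (R' y)`. If `R' x`, `R' y` are integral it is integral. Conversely, if it is integral
  for all `y ∈ L`, take `y = Q' *ᵥ (M⁻¹ *ᵥ Pi.single i 1) ∈ L`: the value is `(R' x) i`.
* bounded: `x = Q' *ᵥ (R' *ᵥ x)`. Open: the entries of `R' *ᵥ x` have norm `≤ c ‖x‖`.
* `st`, `sq`, `com` and the last clause (for ALL `g`): with `z = R' *ᵥ x` integral,
  `R' (C x) = C₀ z = z + m X z`, etc.; `y := Q' *ᵥ (integral vector)`.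
* `alt`: `bil (b.map ι) x (C x) = zᵀ M C₀ z = zᵀ (Lo - Up) z = 0`, because `zᵀ Lo z = zᵀ Loᵀ z`.
-/

set_option autoImplicit false
set_option linter.unusedSectionVars false

namespace Pool.Agent.Work.MP_787500_nt.PL

open Matrix

universe v

variable {E : Type v} [NormedField E] [NormedAlgebra ℚ_[2] E] [FiniteDimensional ℚ_[2] E] {n : ℕ}
  {G : Type*} [Group G] {κ : G → G} {ρ : G →* Matrix (Fin n) (Fin n) E} {b Q R : Matrix (Fin n) (Fin n) E}

section core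

open Pool.Agent.Work.MP_787500_nt.GP (OE bil)
open Pool.Agent.Work.MP_787500_nt.GP.Bd (mv_le add_le' sub_le' det_le adj_le)

variable {K : Type*} [NormedField K] [NormedAlgebra ℚ_[2] K] {N : ℕ}

/-- congruent to the identity modulo `m` -/
private def Cg (m : K) (A : Matrix (Fin N) (Fin N) K) : Prop := ∀ i j, ‖(A - 1) i j‖ ≤ ‖m‖

private theorem cg_int {m : K} (hm : ‖m‖ < 1) {A : Matrix (Fin N) (Fin N) K} (hA : Cg m A) (i j : Fin N) :
    ‖A i j‖ ≤ 1 := by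
  have hu := Gn.ultra 2 K
  have e : A i j = (A - 1) i j + (1 : Matrix (Fin N) (Fin N) K) i j := by
    rw [Matrix.sub_apply, sub_add_cancel]
  rw [e]
  refine add_le' ((hA i j).trans hm.le) ?_
  rw [Matrix.one_apply]
  split_ifs <;> simp

private theorem mul_small {r : ℝ} (hr : 0 ≤ r) {A B : Matrix (Fin N) (Fin N) K}
    (hA : ∀ i j, ‖A i j‖ ≤ r) (hB : ∀ i j, ‖B i j‖ ≤ 1) (i j : Fin N) : ‖(A * B) i j‖ ≤ r := by
  have hu := Gn.ultra 2 K
  rw [Matrix.mul_apply]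
  refine IsUltrametricDist.norm_sum_le_of_forall_le_of_nonneg hr fun k _ => ?_
  rw [norm_mul]
  calc ‖A i k‖ * ‖B k j‖ ≤ r * 1 := mul_le_mul (hA i k) (hB k j) (norm_nonneg _) hr
    _ = r := mul_one r

private theorem mul_small' {r : ℝ} (hr : 0 ≤ r) {A B : Matrix (Fin N) (Fin N) K}
    (hA : ∀ i j, ‖A i j‖ ≤ 1) (hB : ∀ i j, ‖B i j‖ ≤ r) (i j : Fin N) : ‖(A * B) i j‖ ≤ r := by
  have hu := Gn.ultra 2 K
  rw [Matrix.mul_apply]
  refine IsUltrametricDist.norm_sum_le_of_forall_le_of_nonneg hr fun k _ => ?_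
  rw [norm_mul]
  calc ‖A i k‖ * ‖B k j‖ ≤ 1 * r := mul_le_mul (hA i k) (hB k j) (norm_nonneg _) zero_le_one
    _ = r := one_mul r

private theorem cg_one (m : K) : Cg m (1 : Matrix (Fin N) (Fin N) K) := by
  intro i j
  rw [sub_self, Matrix.zero_apply, norm_zero]
  exact norm_nonneg _

private theorem cg_mul {m : K} (hm : ‖m‖ < 1) {A B : Matrix (Fin N) (Fin N) K} (hA : Cg m A)
    (hB : Cg m B) : Cg m (A * B) := by
  have hu := Gn.ultra 2 K
  intro i j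
  have e : A * B - 1 = (A - 1) * B + (B - 1) := by noncomm_ring
  rw [e, Matrix.add_apply]
  exact add_le' (mul_small (norm_nonneg _) hA (cg_int hm hB) i j) (hB i j)

private theorem cg_diff {m : K} (hm0 : m ≠ 0) {A B : Matrix (Fin N) (Fin N) K} (hA : Cg m A)
    (hB : Cg m B) {z : Fin N → K} (hz : ‖z‖ ≤ 1) :
    ∃ y : Fin N → K, ‖y‖ ≤ 1 ∧ A *ᵥ z - B *ᵥ z = m • y := by
  have hu := Gn.ultra 2 K
  have hmp : 0 < ‖m‖ := norm_pos_iff.2 hm0
  refine ⟨m⁻¹ • (A *ᵥ z - B *ᵥ z), ?_, ?_⟩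
  · rw [norm_smul, norm_inv]
    have h1 : ‖A *ᵥ z - B *ᵥ z‖ ≤ ‖m‖ := by
      refine (pi_norm_le_iff_of_nonneg (norm_nonneg _)).2 fun i => ?_
      have e : (A *ᵥ z - B *ᵥ z) i = ∑ j, ((A - 1) i j - (B - 1) i j) * z j := by
        rw [← sub_mulVec]
        show ∑ j, (A - B) i j * z j = _
        refine Finset.sum_congr rfl fun j _ => ?_
        rw [Matrix.sub_apply, Matrix.sub_apply, Matrix.sub_apply]
        ring
      rw [e]
      refine IsUltrametricDist.norm_sum_le_of_forall_le_of_nonneg (norm_nonneg _) fun j _ => ?_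
      rw [norm_mul]
      calc ‖(A - 1) i j - (B - 1) i j‖ * ‖z j‖ ≤ ‖m‖ * 1 :=
            mul_le_mul (sub_le' (hA i j) (hB i j)) ((norm_le_pi_norm z j).trans hz) (norm_nonneg _)
              (norm_nonneg _)
        _ = ‖m‖ := mul_one _
    rw [inv_mul_le_iff₀ hmp, mul_one]
    exact h1
  · rw [smul_smul, mul_inv_cancel₀ hm0, one_smul]

private theorem mv_bd (A : Matrix (Fin N) (Fin N) K) :
    ∃ c : ℝ, 0 ≤ c ∧ ∀ v : Fin N → K, ‖A *ᵥ v‖ ≤ c * ‖v‖ := by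
  refine ⟨∑ i, ∑ j, ‖A i j‖, Finset.sum_nonneg fun i _ => Finset.sum_nonneg fun j _ => norm_nonneg _,
    fun v => ?_⟩
  have h0 : 0 ≤ ∑ i, ∑ j, ‖A i j‖ :=
    Finset.sum_nonneg fun i _ => Finset.sum_nonneg fun j _ => norm_nonneg _
  refine (pi_norm_le_iff_of_nonneg (mul_nonneg h0 (norm_nonneg _))).2 fun i => ?_
  show ‖∑ j, A i j * v j‖ ≤ _
  calc ‖∑ j, A i j * v j‖ ≤ ∑ j, ‖A i j * v j‖ := norm_sum_le _ _
    _ ≤ ∑ j, ‖A i j‖ * ‖v‖ := Finset.sum_le_sum fun j _ => by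
        rw [norm_mul]
        exact mul_le_mul_of_nonneg_left (norm_le_pi_norm v j) (norm_nonneg _)
    _ = (∑ j, ‖A i j‖) * ‖v‖ := (Finset.sum_mul _ _ _).symm
    _ ≤ (∑ i, ∑ j, ‖A i j‖) * ‖v‖ := mul_le_mul_of_nonneg_right
        (Finset.single_le_sum (f := fun i => ∑ j, ‖A i j‖)
          (fun i _ => Finset.sum_nonneg fun j _ => norm_nonneg _) (Finset.mem_univ i))
        (norm_nonneg _)

/-- the lattice -/
private def latR (R : Matrix (Fin N) (Fin N) K) : Submodule (OE K) (Fin N → K) where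
  carrier := {x | ‖R *ᵥ x‖ ≤ 1}
  add_mem' := fun {x y} hx hy => by
    have hu := Gn.ultra 2 K
    show ‖R *ᵥ (x + y)‖ ≤ 1
    rw [mulVec_add]
    exact add_le' hx hy
  zero_mem' := by
    show ‖R *ᵥ 0‖ ≤ 1
    rw [mulVec_zero, norm_zero]
    exact zero_le_one
  smul_mem' := fun a x hx => by
    show ‖R *ᵥ ((a : K) • x)‖ ≤ 1
    rw [mulVec_smul, norm_smul]
    exact mul_le_one₀ a.2 (norm_nonneg _) hx

private theorem mem_latR {R : Matrix (Fin N) (Fin N) K} {x : Fin N → K} :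
    x ∈ latR R ↔ ‖R *ᵥ x‖ ≤ 1 := Iff.rfl

/-- the strictly lower part -/
private def lowP (M : Matrix (Fin N) (Fin N) K) : Matrix (Fin N) (Fin N) K :=
  Matrix.of fun i j => if j < i then M i j else 0

private theorem low_alt (M : Matrix (Fin N) (Fin N) K) (u : Fin N → K) :
    u ⬝ᵥ ((lowP M - (lowP M)ᵀ) *ᵥ u) = 0 := by
  rw [sub_mulVec, dotProduct_sub, sub_eq_zero]
  rw [mulVec_transpose, dotProduct_comm u (u ᵥ* lowP M), ← dotProduct_mulVec]

private theorem core {Q R b M : Matrix (Fin N) (Fin N) K} {m : K} (h1 : R * Q = 1) (h2 : Q * R = 1)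
    (hM : Qᵀ * b * Q = M) (hMs : Mᵀ = M) (hMi : ∀ i j, ‖M i j‖ ≤ 1) (hMd : ‖M.det‖ = 1)
    (hm0 : m ≠ 0) (hm1 : ‖m‖ < 1) (hd : ∀ i, ‖M i i‖ ≤ ‖m‖) (h2m : ‖(2 : K)‖ ≤ ‖m‖)
    {G : Type*} {T : G → Matrix (Fin N) (Fin N) K} (hT : ∀ g, Cg m (R * T g * Q)) (κ : G → G) :
    ∃ C : Matrix (Fin N) (Fin N) K,
      (∀ g, ∀ x ∈ latR R, T g *ᵥ x ∈ latR R) ∧
      (∀ x, x ∈ latR R ↔ ∀ y ∈ latR R, ‖bil b x y‖ ≤ 1) ∧ (∃ B : ℝ, ∀ x ∈ latR R, ‖x‖ ≤ B) ∧
      (∃ r : ℝ, 0 < r ∧ ∀ x : Fin N → K, ‖x‖ < r → x ∈ latR R) ∧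
      SH.MatL b m (latR R) κ T C ∧
      ∀ g, ∀ x ∈ latR R, ∃ y ∈ latR R, T g *ᵥ (C *ᵥ x) - x = m • y := by
  have hu := Gn.ultra 2 K
  have hQR : ∀ x : Fin N → K, Q *ᵥ (R *ᵥ x) = x := fun x => by
    rw [mulVec_mulVec, h2, one_mulVec]
  have hRQ : ∀ x : Fin N → K, R *ᵥ (Q *ᵥ x) = x := fun x => by
    rw [mulVec_mulVec, h1, one_mulVec]
  have hdet0 : M.det ≠ 0 := by
    intro h
    rw [h, norm_zero] at hMd
    exact zero_ne_one hMd
  have hun : IsUnit M.det := isUnit_iff_ne_zero.2 hdet0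
  -- the inverse
  have hMinv : ∀ i j, ‖M⁻¹ i j‖ ≤ 1 := by
    intro i j
    rw [Matrix.inv_def, Ring.inverse_eq_inv', Matrix.smul_apply, smul_eq_mul, norm_mul, norm_inv, hMd,
      inv_one, one_mul]
    exact adj_le hMi i j
  have hlow : ∀ i j, ‖(lowP M - (lowP M)ᵀ) i j‖ ≤ 1 := by
    have hl : ∀ i j, ‖lowP M i j‖ ≤ 1 := by
      intro i j
      unfold lowP
      rw [of_apply]
      split_ifs
      · exact hMi i j
      · rw [norm_zero]; exact zero_le_one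
    intro i j
    rw [Matrix.sub_apply, transpose_apply]
    exact sub_le' (hl i j) (hl j i)
  obtain ⟨C0, hC0⟩ : ∃ C0, C0 = M⁻¹ * (lowP M - (lowP M)ᵀ) := ⟨_, rfl⟩
  have hMC : M * C0 = lowP M - (lowP M)ᵀ := by
    rw [hC0, ← Matrix.mul_assoc, Matrix.mul_nonsing_inv _ hun, Matrix.one_mul]
  have hC1 : Cg m C0 := by
    intro i j
    have e : C0 - 1 = M⁻¹ * (lowP M - (lowP M)ᵀ - M) := by
      rw [Matrix.mul_sub, ← hC0, Matrix.nonsing_inv_mul _ hun]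
    rw [e]
    refine mul_small' (norm_nonneg _) hMinv (fun i j => ?_) i j
    rw [Matrix.sub_apply, Matrix.sub_apply, transpose_apply]
    unfold lowP
    rw [of_apply, of_apply]
    have hij : M i j = M j i := by
      have := congrFun (congrFun hMs j) i
      rwa [transpose_apply] at this
    rcases lt_trichotomy i j with h | h | h
    · rw [if_neg (not_lt.2 h.le), if_pos h, ← hij]
      have e : (0 : K) - M i j - M i j = - (2 * M i j) := by ring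
      rw [e, norm_neg, norm_mul]
      calc ‖(2 : K)‖ * ‖M i j‖ ≤ ‖m‖ * 1 := mul_le_mul h2m (hMi i j) (norm_nonneg _) (norm_nonneg _)
        _ = ‖m‖ := mul_one _
    · subst h
      rw [if_neg (lt_irrefl _), sub_zero, zero_sub, norm_neg]
      exact hd i
    · rw [if_pos h, if_neg (not_lt.2 h.le), sub_zero, sub_self, norm_zero]
      exact norm_nonneg _
  -- conjugation
  have cj : ∀ A : Matrix (Fin N) (Fin N) K, ∀ x, (Q * A * R) *ᵥ x = Q *ᵥ (A *ᵥ (R *ᵥ x)) :=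
    fun A x => by rw [mulVec_mulVec, mulVec_mulVec, Matrix.mul_assoc]
  have hTc : ∀ g, T g = Q * (R * T g * Q) * R := by
    intro g
    have e : Q * (R * T g * Q) * R = (Q * R) * T g * (Q * R) := by simp only [Matrix.mul_assoc]
    rw [e, h2, Matrix.one_mul, Matrix.mul_one]
  have cjm : ∀ A B : Matrix (Fin N) (Fin N) K, ∀ x, (Q * A * R) *ᵥ ((Q * B * R) *ᵥ x) =
      (Q * (A * B) * R) *ᵥ x := by
    intro A B x
    rw [cj, cj, cj, hRQ, mulVec_mulVec _ A B]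
  have cj1 : ∀ x, (Q * (1 : Matrix (Fin N) (Fin N) K) * R) *ᵥ x = x := by
    intro x
    rw [Matrix.mul_one, h2, one_mulVec]
  have key : ∀ A B : Matrix (Fin N) (Fin N) K, Cg m A → Cg m B → ∀ x ∈ latR R, ∃ y ∈ latR R,
      (Q * A * R) *ᵥ x - (Q * B * R) *ᵥ x = m • y := by
    intro A B hA hB x hx
    obtain ⟨y, hy, e⟩ := cg_diff hm0 hA hB (mem_latR.1 hx)
    refine ⟨Q *ᵥ y, ?_, ?_⟩
    · rw [mem_latR, hRQ]
      exact hy
    · rw [cj, cj, ← mulVec_sub, e, mulVec_smul]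
  have st : ∀ A : Matrix (Fin N) (Fin N) K, Cg m A → ∀ x ∈ latR R, (Q * A * R) *ᵥ x ∈ latR R := by
    intro A hA x hx
    rw [mem_latR, cj, hRQ]
    exact (mv_le (cg_int hm1 hA) _).trans hx
  have hbil : ∀ u v : Fin N → K, bil b (Q *ᵥ u) (Q *ᵥ v) = u ⬝ᵥ (M *ᵥ v) := by
    intro u v
    unfold bil
    rw [← hM, ← mulVec_mulVec, ← mulVec_mulVec, dotProduct_comm (Q *ᵥ u), dotProduct_mulVec,
      ← mulVec_transpose, dotProduct_comm]
  refine ⟨Q * C0 * R, fun g x hx => ?_, fun x => ⟨fun hx y hy => ?_, fun hx => ?_⟩, ?_, ?_, ?_, ?_⟩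
  · rw [hTc g]
    exact st _ (hT g) x hx
  · rw [← hQR x, ← hQR y, hbil]
    refine (GP.Bd.dot_le _ _).trans ?_
    exact mul_le_one₀ hx (norm_nonneg _) ((mv_le hMi _).trans hy)
  · rw [mem_latR]
    refine (pi_norm_le_iff_of_nonneg zero_le_one).2 fun i => ?_
    have hs : ‖(Pi.single i 1 : Fin N → K)‖ ≤ 1 := by
      refine (pi_norm_le_iff_of_nonneg zero_le_one).2 fun j => ?_
      rw [Pi.single_apply]
      split_ifs <;> simp
    have hy : Q *ᵥ (M⁻¹ *ᵥ Pi.single i 1) ∈ latR R := by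
      rw [mem_latR, hRQ]
      exact (mv_le hMinv _).trans hs
    have h3 := hx _ hy
    rw [← hQR x, hbil, mulVec_mulVec, Matrix.mul_nonsing_inv _ hun, one_mulVec,
      dotProduct_single_one] at h3
    exact h3
  · obtain ⟨c, hc, h3⟩ := mv_bd Q
    refine ⟨c, fun x hx => ?_⟩
    rw [← hQR x]
    refine (h3 _).trans ?_
    calc c * ‖R *ᵥ x‖ ≤ c * 1 := mul_le_mul_of_nonneg_left hx hc
      _ = c := mul_one c
  · obtain ⟨c, hc, h3⟩ := mv_bd R
    refine ⟨(c + 1)⁻¹, by positivity, fun x hx => ?_⟩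
    rw [mem_latR]
    refine (h3 x).trans ?_
    have hc1 : 0 < c + 1 := by positivity
    calc c * ‖x‖ ≤ (c + 1) * (c + 1)⁻¹ :=
          mul_le_mul (by linarith) hx.le (norm_nonneg _) hc1.le
      _ = 1 := mul_inv_cancel₀ hc1.ne'
  · refine ⟨fun x hx => st _ hC1 x hx, fun x hx => ?_, fun g x hx => ?_, fun x => ?_⟩
    · obtain ⟨y, hy, e⟩ := key _ _ (cg_mul hm1 hC1 hC1) (cg_one m) x hx
      refine ⟨y, hy, ?_⟩
      rw [cjm, ← e, cj1]
    · obtain ⟨y, hy, e⟩ := key _ _ (cg_mul hm1 hC1 (hT (κ g))) (cg_mul hm1 (hT g) hC1) x hx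
      refine ⟨y, hy, ?_⟩
      rw [← e, ← cjm C0 (R * T (κ g) * Q) x, ← cjm (R * T g * Q) C0 x, ← hTc (κ g), ← hTc g]
    · have e : (Q * C0 * R) *ᵥ x = Q *ᵥ (C0 *ᵥ (R *ᵥ x)) := cj _ _
      have h3 := hbil (R *ᵥ x) (C0 *ᵥ (R *ᵥ x))
      rw [hQR, mulVec_mulVec (R *ᵥ x) M C0, hMC, low_alt] at h3
      rw [e, h3]
  · intro g x hx
    obtain ⟨y, hy, e⟩ := key _ _ (cg_mul hm1 (hT g) hC1) (cg_one m) x hx
    refine ⟨y, hy, ?_⟩
    rw [← e, ← cjm (R * T g * Q) C0 x, ← hTc g, cj1]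

end core

theorem hasL_of_triv (hb : bᵀ = b) (h : TrivB (fun g => ρ g) b Q R) (A : G → Prop) :
    SH.HasL A κ ρ b := by
  intro E' _ _ _ ι m l hl0 hl1 hlm hx
  have hm0 : m ≠ 0 := hx.ne hl0
  have hm1 : ‖m‖ < 1 := hx.lt hl1
  have hmax : ∀ z : E', ‖z‖ < 1 → ‖z‖ ≤ ‖m‖ := hx.max hl0 hl1 hlm
  have hmap : (Q.map ι)ᵀ * b.map ι * Q.map ι = (Qᵀ * b * Q).map ι := by
    rw [← Matrix.transpose_map, ← Matrix.map_mul, ← Matrix.map_mul]
  have h1 : R.map ι * Q.map ι = 1 := by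
    rw [← Matrix.map_mul, h.inv]
    exact Matrix.map_one _ (map_zero ι) (map_one ι)
  have h2 : Q.map ι * R.map ι = 1 := by
    rw [← Matrix.map_mul, h.inv']
    exact Matrix.map_one _ (map_zero ι) (map_one ι)
  have hsym : ((Qᵀ * b * Q).map ι)ᵀ = (Qᵀ * b * Q).map ι := by
    rw [← Matrix.transpose_map]
    congr 1
    rw [transpose_mul, transpose_mul, transpose_transpose, hb, Matrix.mul_assoc]
  have hdet : ‖((Qᵀ * b * Q).map ι).det‖ = 1 := by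
    have e := RingHom.map_det (ι : E →+* E') (Qᵀ * b * Q)
    have e2 : ((ι : E →+* E').mapMatrix (Qᵀ * b * Q)) = (Qᵀ * b * Q).map ι := rfl
    rw [e2] at e
    rw [← e]
    show ‖ι (Qᵀ * b * Q).det‖ = 1
    rw [hx.norm, h.det]
  have h2m : ‖(2 : E')‖ ≤ ‖m‖ := by
    refine hmax 2 ?_
    have h3 := Gn.norm_p 2 E'
    push_cast at h3
    rw [h3]
    norm_num
  have hT : ∀ g, Cg m (R.map ι * LX.mapRep ι ρ g * Q.map ι) := by
    intro g i j
    have e : R.map ι * LX.mapRep ι ρ g * Q.map ι - 1 = (R * ρ g * Q - 1).map ι := by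
      rw [LX.mapRep_apply, ← Matrix.map_mul, ← Matrix.map_mul, Matrix.map_sub _ (map_sub ι),
        Matrix.map_one _ (map_zero ι) (map_one ι)]
    rw [e, Matrix.map_apply]
    refine hmax _ ?_
    rw [hx.norm]
    exact h.triv g i j
  obtain ⟨C, c1, c2, c3, c4, c5, c6⟩ := core h1 h2 hmap hsym
    (fun i j => by rw [Matrix.map_apply, hx.norm]; exact h.int i j) hdet hm0 hm1
    (fun i => hmax _ (by rw [Matrix.map_apply, hx.norm]; exact h.diag i)) h2m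
    (T := fun g => LX.mapRep ι ρ g) hT κ
  exact ⟨latR (R.map ι), C, c1, c2, c3, c4, c5, fun g _ _ => c6 g⟩

end Pool.Agent.Work.MP_787500_nt.PL
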