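import Mathlib
import Pool.Agent.Work.MP_787500_nt.PL.Defs

/-!
# Module PL/Up (size S): extension by a square root

`‖l‖ = ‖ι l‖ = ‖m‖ ^ 2` (`h.sq`, `h.norm`), so `‖l‖ ^ N = ‖m‖ ^ (2 * N)`; all matrices are images under `Matrix.map ι` of the old
ones (`Matrix.map_mul`, `Matrix.transpose_map`, `RingHom.map_det`), and `ι` preserves norms.
-/

set_option autoImplicit false
set_option linter.unusedSectionVars false

namespace Pool.Agent.Work.MP_787500_nt.PL

open Matrix
open Pool.Agent.Work.MP_787500_nt.LX (SqrtExt mapRep)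

variable {E E' : Type*} [NormedField E] [NormedAlgebra ℚ_[2] E] [FiniteDimensional ℚ_[2] E]
  [NormedField E'] [NormedAlgebra ℚ_[2] E'] [FiniteDimensional ℚ_[2] E'] {ι : E →ₐ[ℚ_[2]] E'}
  {l : E} {m : E'} {n : ℕ} {G : Type*} [Group G] {ρ : G →* Matrix (Fin n) (Fin n) E}
  {b Q R : Matrix (Fin n) (Fin n) E} {N : ℕ}

theorem flag_ext (h : SqrtExt ι l m) (hF : FlagB (fun g => ρ g) b Q R l N) :
    FlagB (fun g => mapRep ι ρ g) (b.map ι) (Q.map ι) (R.map ι) m (2 * N) := by
  have hmap : ∀ A B : Matrix (Fin n) (Fin n) E, (A * B).map ι = A.map ι * B.map ι := fun A B => by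
    ext i j
    simp [Matrix.mul_apply, map_sum]
  have hone : (1 : Matrix (Fin n) (Fin n) E).map ι = 1 := by
    ext i j
    by_cases hij : i = j
    · subst hij
      simp
    · simp [Matrix.one_apply_ne hij]
  have hg : (Q.map ι)ᵀ * b.map ι * Q.map ι = (Qᵀ * b * Q).map ι := by
    rw [hmap, hmap, Matrix.transpose_map]
  have hr : ∀ g, R.map ι * mapRep ι ρ g * Q.map ι = (R * ρ g * Q).map ι := fun g => by
    rw [hmap, hmap, LX.mapRep_apply]
  have hm : ‖m‖ * ‖m‖ = ‖l‖ := by
    rw [← norm_mul, h.sq, h.norm]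
  have hpow : ‖m‖ ^ (2 * N) = ‖l‖ ^ N := by
    rw [pow_mul, pow_two, hm]
  refine ⟨?_, ?_, ?_, ?_, ?_, ?_, ?_, ?_⟩
  · rw [← hmap, hF.inv, hone]
  · rw [← hmap, hF.inv', hone]
  · intro i j
    rw [hg, Matrix.map_apply, h.norm]
    exact hF.int i j
  · rw [hg]
    have e : ((Qᵀ * b * Q).map ι).det = ι (Qᵀ * b * Q).det := by
      have := RingHom.map_det (ι : E →+* E') (Qᵀ * b * Q)
      exact this.symm
    rw [e, h.norm]
    exact hF.det
  · intro i j hij
    rw [hg, Matrix.map_apply, h.norm, hpow]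
    exact hF.low i j hij
  · intro g i j
    simp only [hr, Matrix.map_apply, h.norm]
    exact hF.rint g i j
  · intro g i j hij
    simp only [hr, Matrix.map_apply, h.norm, hpow]
    exact hF.rlow g i j hij
  · intro g i
    simp only [hr, Matrix.map_apply]
    rw [← map_one ι, ← map_sub, h.norm]
    exact hF.rdiag g i

end Pool.Agent.Work.MP_787500_nt.PL
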