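import Mathlib
import Pool.Agent.Work.MP_787500_nt.PL.Defs

/-!
# Module PL/Wt (size M): weights

Let `a i = 2 * i - (n - 1) : ℤ` (`i = 0, ..., n - 1`), `Δ = diagonal (fun i => l ^ a i)`, `Q' = Q * Δ`,
`R' = Δ⁻¹ * R = diagonal (fun i => l ^ (- a i)) * R`.
* `(R' * ρ g * Q') i j = l ^ (a j - a i) * (R * ρ g * Q) i j` and `a j - a i = 2 * (j - i)`: for `i < j` the norm is
  `≤ ‖l‖ ^ 2 < 1`; for `j < i` it is `≤ ‖l‖ ^ N * ‖l‖ ^ (- 2 * (i - j)) < 1` because `2 * (i - j) ≤ 2 * (n - 1) < N`; for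
  `i = j` it is the old entry, congruent to 1.
* `(Q'ᵀ * b * Q') i j = l ^ (a i + a j) * (Qᵀ * b * Q) i j` and `a i + a j = 2 * (i + j - (n - 1))`: for `i + j > n - 1`
  the norm is `< 1`, for `i + j = n - 1` it is the old entry, for `i + j < n - 1` it is
  `≤ ‖l‖ ^ N * ‖l‖ ^ (- 2 * (n - 1 - i - j)) < 1`. On the diagonal `i + i ≠ n - 1` because `n` is even, so the norm is `< 1`.
* the determinant is multiplied by `(∏ l ^ a i) ^ 2 = 1` because `∑ a i = 0` (`Finset.sum_range_id_mul_two`).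
-/

set_option autoImplicit false
set_option linter.unusedSectionVars false

namespace Pool.Agent.Work.MP_787500_nt.PL

open Matrix

variable {E : Type*} [NormedField E] {n : ℕ} {G : Type*} {ρ : G → Matrix (Fin n) (Fin n) E}
  {b Q R : Matrix (Fin n) (Fin n) E} {l : E} {N : ℕ}

private theorem zp_le {x : ℝ} (h0 : 0 < x) (h1 : x < 1) {z : ℤ} (hz : 0 ≤ z) : x ^ z ≤ 1 := by
  obtain ⟨m, rfl⟩ := Int.eq_ofNat_of_zero_le hz
  rw [zpow_natCast]
  exact pow_le_one₀ h0.le h1.le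

private theorem zp_lt {x : ℝ} (h0 : 0 < x) (h1 : x < 1) {z : ℤ} (hz : 0 < z) : x ^ z < 1 := by
  obtain ⟨m, rfl⟩ := Int.eq_ofNat_of_zero_le hz.le
  rw [zpow_natCast]
  exact pow_lt_one₀ h0.le h1 (by omega)

private theorem nm (hl0 : l ≠ 0) (x : E) (s t : ℤ) :
    ‖l ^ s * x * l ^ t‖ = ‖l‖ ^ (s + t) * ‖x‖ := by
  rw [norm_mul, norm_mul, norm_zpow, norm_zpow, zpow_add₀ (norm_ne_zero_iff.2 hl0)]
  ring

private theorem sum_wt (n : ℕ) : ∑ i : Fin n, (2 * ((i : ℕ) : ℤ) - ((n : ℤ) - 1)) = 0 := by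
  rw [Finset.sum_sub_distrib, ← Finset.mul_sum, Finset.sum_const, Finset.card_univ, Fintype.card_fin,
    nsmul_eq_mul]
  have h1 : ∑ i : Fin n, ((i : ℕ) : ℤ) = ((∑ i ∈ Finset.range n, i : ℕ) : ℤ) := by
    rw [← Fin.sum_univ_eq_sum_range (fun i => i) n]
    push_cast
    rfl
  rw [h1]
  have h2 := Finset.sum_range_id_mul_two n
  have h3 : ((∑ i ∈ Finset.range n, i : ℕ) : ℤ) * 2 = (n : ℤ) * ((n : ℤ) - 1) := by
    rcases n with _ | n
    · simp
    · have h4 : (((∑ i ∈ Finset.range (n + 1), i) * 2 : ℕ) : ℤ) = (((n + 1) * (n + 1 - 1) : ℕ) : ℤ) := by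
        rw [h2]
      rw [Nat.add_sub_cancel] at h4
      push_cast at h4 ⊢
      rw [h4]
      ring
  linarith

theorem triv_of_flag (hn : Even n) (hl0 : l ≠ 0) (hl1 : ‖l‖ < 1) (hN : 2 * n ≤ N)
    (h : FlagB ρ b Q R l N) : ∃ Q' R', TrivB ρ b Q' R' := by
  have hx0 : 0 < ‖l‖ := norm_pos_iff.2 hl0
  set a : Fin n → ℤ := fun i => 2 * ((i : ℕ) : ℤ) - ((n : ℤ) - 1) with ha
  set D : Matrix (Fin n) (Fin n) E := Matrix.diagonal (fun i => l ^ a i) with hD
  set D' : Matrix (Fin n) (Fin n) E := Matrix.diagonal (fun i => l ^ (-a i)) with hD'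
  have hDD : D' * D = 1 := by
    rw [hD, hD', Matrix.diagonal_mul_diagonal, ← Matrix.diagonal_one]
    congr 1
    funext i
    rw [← zpow_add₀ hl0, neg_add_cancel, zpow_zero]
  have hDD' : D * D' = 1 := by
    rw [hD, hD', Matrix.diagonal_mul_diagonal, ← Matrix.diagonal_one]
    congr 1
    funext i
    rw [← zpow_add₀ hl0, add_neg_cancel, zpow_zero]
  have hpow : ‖l‖ ^ N = ‖l‖ ^ (N : ℤ) := (zpow_natCast _ _).symm
  have hB : (Q * D)ᵀ * b * (Q * D) = D * (Qᵀ * b * Q) * D := by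
    rw [Matrix.transpose_mul, hD, Matrix.diagonal_transpose]
    simp only [Matrix.mul_assoc]
  have hBe : ∀ i j, ((Q * D)ᵀ * b * (Q * D)) i j = l ^ a i * (Qᵀ * b * Q) i j * l ^ a j := by
    intro i j
    rw [hB, hD, Matrix.mul_diagonal, Matrix.diagonal_mul]
  have hR : ∀ g, (D' * R) * ρ g * (Q * D) = D' * (R * ρ g * Q) * D := by
    intro g
    simp only [Matrix.mul_assoc]
  have hRe : ∀ g i j, ((D' * R) * ρ g * (Q * D)) i j = l ^ (-a i) * (R * ρ g * Q) i j * l ^ a j := by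
    intro g i j
    rw [hR, hD, hD', Matrix.mul_diagonal, Matrix.diagonal_mul]
  have hlow : ∀ i j : Fin n, (i : ℕ) + j + 1 < n →
      ‖((Q * D)ᵀ * b * (Q * D)) i j‖ < 1 := by
    intro i j hij
    rw [hBe, nm hl0]
    have h1 := h.low i j hij
    have h2 : 0 ≤ ‖l‖ ^ (a i + a j) := (zpow_pos hx0 _).le
    calc ‖l‖ ^ (a i + a j) * ‖(Qᵀ * b * Q) i j‖ ≤ ‖l‖ ^ (a i + a j) * ‖l‖ ^ N :=
          mul_le_mul_of_nonneg_left h1 h2
      _ = ‖l‖ ^ (a i + a j + N) := by rw [hpow, ← zpow_add₀ hx0.ne']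
      _ < 1 := zp_lt hx0 hl1 (by simp only [ha]; omega)
  refine ⟨Q * D, D' * R, ?_, ?_, ?_, ?_, ?_, ?_⟩
  · calc D' * R * (Q * D) = D' * (R * Q) * D := by simp only [Matrix.mul_assoc]
      _ = 1 := by rw [h.inv, Matrix.mul_one, hDD]
  · calc Q * D * (D' * R) = Q * (D * D') * R := by simp only [Matrix.mul_assoc]
      _ = 1 := by rw [hDD', Matrix.mul_one, h.inv']
  · intro i j
    by_cases hij : (i : ℕ) + j + 1 < n
    · exact (hlow i j hij).le
    · rw [hBe, nm hl0]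
      exact mul_le_one₀ (zp_le hx0 hl1 (by simp only [ha]; omega)) (norm_nonneg _) (h.int i j)
  · rw [hB, Matrix.det_mul, Matrix.det_mul, norm_mul, norm_mul, h.det]
    have h1 : D.det = 1 := by
      rw [hD, Matrix.det_diagonal]
      have h2 : ∀ s : Finset (Fin n), ∏ i ∈ s, l ^ a i = l ^ (∑ i ∈ s, a i) := by
        intro s
        induction s using Finset.cons_induction with
        | empty => simp
        | cons i s hi ih => rw [Finset.prod_cons, Finset.sum_cons, ih, zpow_add₀ hl0]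
      rw [h2, ha, sum_wt, zpow_zero]
    rw [h1, norm_one, one_mul, one_mul]
  · intro i
    by_cases hij : (i : ℕ) + i + 1 < n
    · exact hlow i i hij
    · rw [hBe, nm hl0]
      have h1 : 0 < a i + a i := by
        obtain ⟨m, hm⟩ := hn
        simp only [ha]
        omega
      calc ‖l‖ ^ (a i + a i) * ‖(Qᵀ * b * Q) i i‖ ≤ ‖l‖ ^ (a i + a i) * 1 :=
            mul_le_mul_of_nonneg_left (h.int i i) (zpow_pos hx0 _).le
        _ < 1 := by rw [mul_one]; exact zp_lt hx0 hl1 h1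
  · intro g i j
    rw [Matrix.sub_apply, hRe]
    rcases lt_trichotomy i j with hij | rfl | hij
    · rw [Matrix.one_apply_ne hij.ne, sub_zero, nm hl0]
      have hij' : (i : ℕ) < j := hij
      calc ‖l‖ ^ (-a i + a j) * ‖(R * ρ g * Q) i j‖ ≤ ‖l‖ ^ (-a i + a j) * 1 :=
            mul_le_mul_of_nonneg_left (h.rint g i j) (zpow_pos hx0 _).le
        _ < 1 := by rw [mul_one]; exact zp_lt hx0 hl1 (by simp only [ha]; omega)
    · rw [Matrix.one_apply_eq]
      have h1 : l ^ (-a i) * (R * ρ g * Q) i i * l ^ a i = (R * ρ g * Q) i i := by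
        have h2 : l ^ (-a i) * l ^ a i = 1 := by
          rw [← zpow_add₀ hl0, neg_add_cancel, zpow_zero]
        calc _ = (l ^ (-a i) * l ^ a i) * (R * ρ g * Q) i i := by ring
          _ = _ := by rw [h2, one_mul]
      rw [h1]
      exact h.rdiag g i
    · rw [Matrix.one_apply_ne hij.ne', sub_zero, nm hl0]
      have hij' : (j : ℕ) < i := hij
      have hi := i.2
      calc ‖l‖ ^ (-a i + a j) * ‖(R * ρ g * Q) i j‖ ≤ ‖l‖ ^ (-a i + a j) * ‖l‖ ^ N :=
            mul_le_mul_of_nonneg_left (h.rlow g i j hij) (zpow_pos hx0 _).le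
        _ = ‖l‖ ^ (-a i + a j + N) := by rw [hpow, ← zpow_add₀ hx0.ne']
        _ < 1 := zp_lt hx0 hl1 (by simp only [ha]; omega)

end Pool.Agent.Work.MP_787500_nt.PL
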